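import Pool.Agent.Lib.HyE.Defs
import Pool.Agent.Lib.HyC.Bary
import Pool.Agent.Lib.HyC.ET
import Pool.Agent.Lib.HyS.CarC

/-!
# HyE, row Frm: from a lattice triangulation to sets of pairs

PROOF IN WORDS. `C S` holds if there is `F` with `F = ∅` or `F ∈ T.K.faces` such that `ind {i, j} ∈ F` for all `S i j` with
`i ≠ j`. `mono` is clear. `exi`: `ex_T` in HyC.ET (landed; convert `HyC.IsW`, `HyC.deg`, same formulas;
`0 < w p q` gives `p ≠ q`). `uniq`: let `F, F'` be the sets for `u, v`. For `w : Fin n → ℝ` let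
`a w = (1/2) * ∑ i j, if i ≠ j ∧ ind {i, j} = w then u i j else 0`, `b w` from `v`. All terms of positive weight have
`ind {i, j} ∈ F`, so `∑ w ∈ F, a w = (1/2) ∑ i, deg u i`, `∑ w ∈ F, a w • w =` the vector `deg u`
(`ind {i, j} = e_i + e_j`); the same for `v`. `bary` (HyC.Bary, landed) gives `a = b` on `F ∪ F'`. For `i ≠ j`
`a (ind {i, j}) = u i j` (the two orders of the pair; `ind {k, l} = ind {i, j}` iff `{k, l} = {i, j}`,
`ind_injective` in HyS.CarB), so if `u i j > 0` then `ind {i, j} ∈ F`, and `bary` gives `u i j = v i j`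
(in particular it is in `F'`, otherwise `a = 0`); otherwise by symmetry both are zero. (Lib/HyC/Cv.lean and
UA.lean contain similar computations; there `toW`.) Invariance: `F ↦` the face `t` of
`Invariant` with `(t : Set _) = permute σ '' F` (`F = ∅`: `∅`), `permute_ind` in HyS.CarC.
-/

set_option autoImplicit false

namespace Pool.Agent.Lib.HyE

open Finset Pool.Agent.Lib

open Classical in
private noncomputable def frmA {n : ℕ} (u : Fin n → Fin n → ℝ) (w : Fin n → ℝ) : ℝ :=
  (1 / 2) * ∑ i, ∑ j, if i ≠ j ∧ HyS.ind {i, j} = w then u i j else 0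

private theorem frm_nn {n : ℕ} {u : Fin n → Fin n → ℝ} (hu : IsW u) (w : Fin n → ℝ) : 0 ≤ frmA u w := by
  unfold frmA
  refine mul_nonneg (by norm_num) (sum_nonneg fun i _ => sum_nonneg fun j _ => ?_)
  split_ifs
  · exact hu.nn i j
  · exact le_rfl

private theorem frm_tot {n : ℕ} {u : Fin n → Fin n → ℝ} (hu : IsW u) (F : Finset (Fin n → ℝ))
    (hF : ∀ i j, i ≠ j → 0 < u i j → HyS.ind {i, j} ∈ F) (g : (Fin n → ℝ) → ℝ) :
    ∑ w ∈ F, frmA u w * g w = (1 / 2) * ∑ i, ∑ j, u i j * g (HyS.ind {i, j}) := by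
  classical
  have h1 : ∀ w ∈ F, frmA u w * g w =
      (1 / 2) * ∑ i, ∑ j, if i ≠ j ∧ HyS.ind {i, j} = w then u i j * g (HyS.ind {i, j}) else 0 := by
    intro w _
    unfold frmA
    rw [mul_assoc, sum_mul]
    congr 1
    refine sum_congr rfl fun i _ => ?_
    rw [sum_mul]
    refine sum_congr rfl fun j _ => ?_
    by_cases h : i ≠ j ∧ HyS.ind {i, j} = w
    · rw [if_pos h, if_pos h, h.2]
    · rw [if_neg h, if_neg h, zero_mul]
  rw [sum_congr rfl h1, ← mul_sum]
  congr 1
  rw [sum_comm]
  refine sum_congr rfl fun i _ => ?_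
  rw [sum_comm]
  refine sum_congr rfl fun j _ => ?_
  rcases (hu.nn i j).eq_or_lt with h | h
  · rw [← h]
    simp
  · have hij : i ≠ j := by
      rintro rfl
      rw [hu.dg i] at h
      exact lt_irrefl _ h
    rw [sum_eq_single (HyS.ind {i, j})]
    · rw [if_pos ⟨hij, rfl⟩]
    · intro w _ hw
      exact if_neg fun h' => hw h'.2.symm
    · intro hn
      exact absurd (hF i j hij h) hn

private theorem frm_deg {n : ℕ} {u : Fin n → Fin n → ℝ} (hu : IsW u) (F : Finset (Fin n → ℝ))
    (hF : ∀ i j, i ≠ j → 0 < u i j → HyS.ind {i, j} ∈ F) :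
    ∑ w ∈ F, frmA u w • w = deg u := by
  classical
  funext k
  rw [Finset.sum_apply]
  have h1 := frm_tot hu F hF (fun w => w k)
  have h2 : ∑ w ∈ F, (frmA u w • w) k = ∑ w ∈ F, frmA u w * w k := rfl
  rw [h2, h1]
  have h3 : ∀ i j : Fin n, u i j * HyS.ind {i, j} k =
      (if i = k then u i j else 0) + (if j = k then u i j else 0) := by
    intro i j
    by_cases hij : i = j
    · subst hij
      rw [hu.dg i]
      simp
    · unfold HyS.ind
      by_cases h1 : i = k
      · have h2 : j ≠ k := fun h => hij (h1.trans h.symm)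
        rw [if_pos h1, if_neg h2, if_pos (by simp [h1])]
        ring
      · by_cases h2 : j = k
        · rw [if_neg h1, if_pos h2, if_pos (by simp [h2])]
          ring
        · rw [if_neg h1, if_neg h2, if_neg (by
            simp only [mem_insert, mem_singleton, not_or]
            exact ⟨fun h => h1 h.symm, fun h => h2 h.symm⟩)]
          ring
  simp only [h3, sum_add_distrib]
  have h4 : ∑ i : Fin n, ∑ j : Fin n, (if i = k then u i j else 0) = deg u k := by
    rw [sum_eq_single k]
    · simp [deg]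
    · intro i _ hi
      simp [hi]
    · intro h
      exact absurd (mem_univ _) h
  have h5 : ∑ i : Fin n, ∑ j : Fin n, (if j = k then u i j else 0) = deg u k := by
    unfold deg
    refine sum_congr rfl fun i _ => ?_
    rw [sum_ite_eq' univ k (fun j => u i j), if_pos (mem_univ _)]
    exact hu.sym i k
  rw [h4, h5]
  ring

private theorem frm_at {n : ℕ} {u : Fin n → Fin n → ℝ} (hu : IsW u) {i j : Fin n} (hij : i ≠ j) :
    frmA u (HyS.ind {i, j}) = u i j := by
  classical
  unfold frmA
  have h1 : ∀ k l : Fin n, (if k ≠ l ∧ HyS.ind {k, l} = HyS.ind {i, j} then u k l else 0) =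
      (if k = i then (if l = j then u i j else 0) else 0) +
      (if k = j then (if l = i then u i j else 0) else 0) := by
    intro k l
    by_cases h : k ≠ l ∧ HyS.ind {k, l} = HyS.ind {i, j}
    · rw [if_pos h]
      have h2 := HyS.ind_injective n h.2
      have h3 : k ∈ ({i, j} : Finset (Fin n)) := by
        rw [← h2]
        simp
      have h4 : l ∈ ({i, j} : Finset (Fin n)) := by
        rw [← h2]
        simp
      simp only [mem_insert, mem_singleton] at h3 h4
      rcases h3 with rfl | rfl
      · have h5 : l = j := by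
          rcases h4 with h4 | h4
          · exact absurd h4.symm h.1
          · exact h4
        subst h5
        simp [hij]
      · have h5 : l = i := by
          rcases h4 with h4 | h4
          · exact h4
          · exact absurd h4.symm h.1
        subst h5
        rw [if_neg (fun h => hij h.symm)]
        simp [hu.sym k l]
    · rw [if_neg h]
      by_cases h1 : k = i
      · have h2 : l ≠ j := by
          rintro rfl
          subst h1
          exact h ⟨hij, rfl⟩
        have h3 : k ≠ j := fun h' => hij (h1.symm.trans h')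
        simp [h1, h2, hij]
      · by_cases h3 : k = j
        · have h2 : l ≠ i := by
            rintro rfl
            subst h3
            exact h ⟨hij.symm, by rw [pair_comm]⟩
          simp [h2, h3, Ne.symm hij]
        · simp [h1, h3]
  simp only [h1, sum_add_distrib]
  have h2 : ∑ k : Fin n, ∑ l : Fin n, (if k = i then (if l = j then u i j else 0) else 0) = u i j := by
    rw [sum_eq_single i]
    · simp
    · intro k _ hk
      simp [hk]
    · intro h
      exact absurd (mem_univ _) h
  have h3 : ∑ k : Fin n, ∑ l : Fin n, (if k = j then (if l = i then u i j else 0) else 0) = u i j := by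
    rw [sum_eq_single j]
    · simp
    · intro k _ hk
      simp [hk]
    · intro h
      exact absurd (mem_univ _) h
  rw [h2, h3]
  ring

theorem frm {n : ℕ} (T : HyS.LatticeTriangulation 2 n) (G : Subgroup (Equiv.Perm (Fin n)))
    (hT : HyS.Invariant G T) :
    ∃ C : (Fin n → Fin n → Prop) → Prop, PT C ∧
      ∀ σ ∈ G, ∀ S, C S → C (fun i j => S (σ.symm i) (σ.symm j)) := by
  classical
  refine ⟨fun S => ∃ F : Finset (Fin n → ℝ), (F = ∅ ∨ F ∈ T.K.faces) ∧
    ∀ i j, i ≠ j → S i j → HyS.ind {i, j} ∈ F, ⟨?_, ?_, ?_⟩, ?_⟩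
  · rintro S S' h ⟨F, hF, h'⟩
    exact ⟨F, hF, fun i j hij hS => h' i j hij (h i j hS)⟩
  · rintro u v hu hv ⟨F, hF, hFu⟩ ⟨F', hF', hFv⟩ hd
    have hFu' : ∀ i j, i ≠ j → 0 < u i j → HyS.ind {i, j} ∈ F := hFu
    have hFv' : ∀ i j, i ≠ j → 0 < v i j → HyS.ind {i, j} ∈ F' := hFv
    have hd' : deg u = deg v := funext hd
    have htu := frm_tot hu F hFu' (fun _ => 1)
    have htv := frm_tot hv F' hFv' (fun _ => 1)
    simp only [mul_one] at htu htv
    have hW : ∑ w ∈ F, frmA u w = ∑ w ∈ F', frmA v w := by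
      rw [htu, htv]
      congr 1
      exact sum_congr rfl fun i _ => hd i
    have hb := HyC.bary T F F' hF hF' (frmA u) (frmA v) (fun w _ => frm_nn hu w)
      (fun w _ => frm_nn hv w) hW (by rw [frm_deg hu F hFu', frm_deg hv F' hFv', hd'])
    obtain ⟨hb1, hb2, hb3⟩ := hb
    intro i j
    by_cases hij : i = j
    · subst hij
      rw [hu.dg, hv.dg]
    · have hau := frm_at hu hij
      have hav := frm_at hv hij
      have hu0 : HyS.ind {i, j} ∉ F → u i j = 0 := fun h =>
        ((hu.nn i j).eq_or_lt.resolve_right fun h' => h (hFu' i j hij h')).symm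
      have hv0 : HyS.ind {i, j} ∉ F' → v i j = 0 := fun h =>
        ((hv.nn i j).eq_or_lt.resolve_right fun h' => h (hFv' i j hij h')).symm
      by_cases h1 : HyS.ind {i, j} ∈ F
      · by_cases h2 : HyS.ind {i, j} ∈ F'
        · rw [← hau, ← hav]
          exact hb1 _ h1 h2
        · rw [hv0 h2, ← hau]
          exact hb2 _ h1 h2
      · by_cases h2 : HyS.ind {i, j} ∈ F'
        · rw [hu0 h1, ← hav]
          exact (hb3 _ h2 h1).symm
        · rw [hu0 h1, hv0 h2]
  · intro x hx hx2
    obtain ⟨w, hw, hwd, F, hF, hFw⟩ := HyC.ex_T T x hx hx2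
    exact ⟨w, ⟨hw.nn, hw.sym, hw.dg⟩, ⟨F, hF, fun i j _ h => hFw i j h⟩, hwd⟩
  · rintro σ hσ S ⟨F, hF, h⟩
    rcases hF with hF | hF
    · subst hF
      refine ⟨∅, Or.inl rfl, fun i j hij hS => ?_⟩
      exact absurd (h _ _ (fun h' => hij (σ.symm.injective h')) hS) (notMem_empty _)
    · obtain ⟨t, ht, hte⟩ := hT σ hσ F hF
      refine ⟨t, Or.inr ht, fun i j hij hS => ?_⟩
      have h1 := h _ _ (fun h' => hij (σ.symm.injective h')) hS
      have h2 : HyS.permute σ (HyS.ind {σ.symm i, σ.symm j}) ∈ (t : Set (Fin n → ℝ)) := by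
        rw [hte]
        exact ⟨_, h1, rfl⟩
      rw [HyS.permute_ind] at h2
      simpa using h2

end Pool.Agent.Lib.HyE
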