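import Pool.Agent.Lib.HyE.Cmp
import Pool.Agent.Lib.HyE.Frm
import Pool.Agent.Lib.HyC.Cy2

/-!
# HyE: cyclic semiregular groups over a finite type
-/

set_option autoImplicit false

namespace Pool.Agent.Lib.HyE

open Finset Pool.Agent.Lib

theorem cyc_ex {ι : Type} [Fintype ι] (G : Subgroup (Equiv.Perm ι))
    (hsr : ∀ σ ∈ G, ∀ i, σ i = i → σ = 1) (g : Equiv.Perm ι) (hg : g ∈ G)
    (hG : ∀ σ ∈ G, ∃ l : ℕ, σ = g ^ l) : Ex G := by
  classical
  let e : ι ≃ Fin (Fintype.card ι) := Fintype.equivFin ι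
  let E := e.permCongrHom
  have hE : ∀ (σ : Equiv.Perm ι) (i : Fin (Fintype.card ι)), E σ i = e (σ (e.symm i)) :=
    fun σ i => rfl
  obtain ⟨T, hT⟩ := HyC.semireg_exists 2 (E g) (by
    intro k x hx
    rw [← map_pow] at hx ⊢
    rw [hE] at hx
    have h1 : (g ^ k) (e.symm x) = e.symm x := by
      apply e.injective
      rw [hx, Equiv.apply_symm_apply]
    rw [hsr _ (G.pow_mem hg k) _ h1, map_one]) (G.map E.toMonoidHom) (by
    rintro σ ⟨s, hs, rfl⟩
    obtain ⟨l, rfl⟩ := hG s hs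
    exact ⟨l, map_pow E g l⟩)
  obtain ⟨C, hC, hCi⟩ := frm T _ hT
  refine ⟨_, trp e.symm C hC, ?_⟩
  intro σ hσ S hS
  have h := hCi (E σ) ⟨σ, hσ, rfl⟩ _ hS
  have h2 : (fun i j : Fin (Fintype.card ι) => S (σ.symm (e.symm i)) (σ.symm (e.symm j))) =
      fun i j => S (e.symm ((E σ).symm i)) (e.symm ((E σ).symm j)) := by
    have h3 : ∀ i, e.symm ((E σ).symm i) = σ.symm (e.symm i) := by
      intro i
      show e.symm (e (σ.symm (e.symm i))) = _
      rw [Equiv.symm_apply_apply]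
    funext i j
    rw [h3, h3]
  show C (fun i j : Fin (Fintype.card ι) => S (σ.symm (e.symm i)) (σ.symm (e.symm j)))
  rw [h2]
  exact h

end Pool.Agent.Lib.HyE
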