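import Pool.Agent.Lib.HyE.Defs
import Pool.Agent.Lib.HyC.Asm
import Pool.Agent.Lib.HyC.Iv1

/-!
# HyE, row ToT: back to lattice triangulations

PROOF IN WORDS. `as_all` in HyC.Asm with `Cn = C`: `Mono`, `Uniq`, `Exi` are the three fields of `PT` (convert `IsW`; for
`x ∈ hypersimplex 2 n`: `∑ x = 2`, `x i ≤ 1`). `inv_of` in HyC.Iv1.
-/

set_option autoImplicit false

namespace Pool.Agent.Lib.HyE

open Finset Pool.Agent.Lib

theorem tot {n : ℕ} (C : (Fin n → Fin n → Prop) → Prop) (h : PT C)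
    (G : Subgroup (Equiv.Perm (Fin n)))
    (hG : ∀ σ ∈ G, ∀ S, C S → C (fun i j => S (σ.symm i) (σ.symm j))) :
    ∃ T : HyS.LatticeTriangulation 2 n, HyS.Invariant G T := by
  have hm : HyC.Mono C := h.mono
  have hu : HyC.Uniq C := fun u v hu hv h1 h2 h3 =>
    h.uniq u v ⟨hu.nn, hu.sym, hu.dg⟩ ⟨hv.nn, hv.sym, hv.dg⟩ h1 h2 h3
  have he : HyC.Exi C := by
    intro x hx
    obtain ⟨hx1, hx2⟩ := hx
    obtain ⟨u, hu, h1, h2⟩ := h.exi x (fun i => (hx1 i).1) (fun i => by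
      rw [hx2]
      have := (hx1 i).2
      push_cast
      linarith)
    exact ⟨u, ⟨hu.nn, hu.sym, hu.dg⟩, h1, h2⟩
  obtain ⟨T, hT⟩ := HyC.as_all C hm hu he
  exact ⟨T, HyC.inv_of T C hm hT G hG⟩

end Pool.Agent.Lib.HyE
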