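import Pool.Agent.Lib.HyE.Cmp
import Pool.Agent.Lib.HyE.Cyc
import Pool.Agent.Lib.HyE.ToT
import Pool.Agent.Lib.HyC.Mn

/-!
# HyE: solvable semiregular groups, by induction
-/

set_option autoImplicit false

namespace Pool.Agent.Lib.HyE

open Finset Pool.Agent.Lib

/-- the group induced on a subset -/
private noncomputable def indHom {ι : Type} (K : Subgroup (Equiv.Perm ι)) (P : ι → Prop)
    (hK : ∀ σ ∈ K, ∀ i, P (σ i) ↔ P i) : K →* Equiv.Perm {i // P i} where
  toFun σ := (σ : Equiv.Perm ι).subtypePerm (fun i => hK σ σ.2 i)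
  map_one' := by
    ext i
    rfl
  map_mul' σ τ := by
    ext i
    rfl

/-- One step: division by a normal subgroup. -/
theorem quo_ex {ι : Type} [Fintype ι] (G K : Subgroup (Equiv.Perm ι)) (hKG : K ≤ G)
    (hKn : ∀ σ ∈ G, ∀ ν ∈ K, σ * ν * σ⁻¹ ∈ K)
    (hsr : ∀ σ ∈ G, ∀ i, σ i = i → σ = 1) (hK1 : ∃ ν ∈ K, ν ≠ 1)
    (hsolv : Group.IsSolvable G)
    (ih1 : ∀ (κ : Type) [Fintype κ] (H : Subgroup (Equiv.Perm κ)), Group.IsSolvable H →
      Nat.card H < Nat.card G → (∀ σ ∈ H, ∀ i, σ i = i → σ = 1) → Ex H)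
    (ih2 : Nat.card K < Nat.card G) : Ex G := by
  classical
  let r : Setoid ι :=
    { r := fun a b => ∃ ν ∈ K, ν a = b
      iseqv :=
        { refl := fun a => ⟨1, K.one_mem, rfl⟩
          symm := by
            rintro a b ⟨σ, hσ, rfl⟩
            exact ⟨σ⁻¹, K.inv_mem hσ, by simp⟩
          trans := by
            rintro a b c ⟨σ, hσ, rfl⟩ ⟨τ, hτ, rfl⟩
            exact ⟨τ * σ, K.mul_mem hτ hσ, rfl⟩ } }
  let π : ι → Quotient r := Quotient.mk r
  have hsur' : Function.Surjective π := Quotient.mk_surjective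
  have hπ' : ∀ a b, π a = π b ↔ ∃ ν ∈ K, ν a = b := fun a b => Quotient.eq (r := r)
  have hinv : ∀ σ ∈ K, ∀ j, π (σ j) = π j := by
    intro σ hσ j
    rw [hπ']
    exact ⟨σ⁻¹, K.inv_mem hσ, by simp⟩
  have hgc : ∀ σ ∈ G, ∀ a b, π a = π b → π (σ a) = π (σ b) := by
    intro σ hσ a b h
    rw [hπ'] at h ⊢
    obtain ⟨ν, hν, rfl⟩ := h
    exact ⟨σ * ν * σ⁻¹, hKn σ hσ ν hν, by simp⟩
  have hsur := hsur'
  choose s hsec using hsur
  let f : G →* Function.End (Quotient r) :=
    { toFun := fun σ => fun p => π ((σ : Equiv.Perm ι) (s p))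
      map_one' := by
        funext p
        exact hsec p
      map_mul' := by
        intro σ τ
        funext p
        show π ((σ : Equiv.Perm ι) ((τ : Equiv.Perm ι) (s p))) =
          π ((σ : Equiv.Perm ι) (s (π ((τ : Equiv.Perm ι) (s p)))))
        exact hgc σ σ.2 _ _ (hsec _).symm }
  let φ : G →* Equiv.Perm (Quotient r) := MonoidHom.toHomPerm f
  have hφ : ∀ (σ : G) i, π ((σ : Equiv.Perm ι) i) = φ σ (π i) := by
    intro σ i
    exact hgc σ σ.2 _ _ (hsec _).symm
  have hφK : ∀ σ : G, (σ : Equiv.Perm ι) ∈ K → φ σ = 1 := by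
    intro σ hσ
    ext1 p
    obtain ⟨j, rfl⟩ := hsur' p
    rw [← hφ, hinv _ hσ]; rfl
  have hstab : ∀ σ ∈ G, ∀ i, π (σ i) = π i → σ ∈ K := by
    intro σ hσ i hi
    rw [hπ'] at hi
    obtain ⟨ν, hν, hi⟩ := hi
    have h1 : ν * σ = 1 := hsr _ (G.mul_mem (hKG hν) hσ) i hi
    rw [eq_inv_of_mul_eq_one_right h1]
    exact K.inv_mem hν
  -- the quotient
  have hcard : Nat.card φ.range < Nat.card G := by
    obtain ⟨ν, hν, hν1⟩ := hK1
    have hni : ¬ Function.Injective φ.rangeRestrict := by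
      intro hi
      apply hν1
      have h1 : φ.rangeRestrict ⟨ν, hKG hν⟩ = φ.rangeRestrict 1 := by
        apply Subtype.ext
        show φ ⟨ν, hKG hν⟩ = φ 1
        rw [map_one]
        exact hφK _ hν
      exact congrArg Subtype.val (hi h1)
    have := Fintype.card_lt_of_surjective_not_injective φ.rangeRestrict
      φ.rangeRestrict_surjective hni
    rw [Nat.card_eq_fintype_card, Nat.card_eq_fintype_card]
    exact this
  have hExb : Ex φ.range := by
    refine ih1 (Quotient r) φ.range ?_ hcard ?_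
    · exact Group.isSolvable_of_surjective φ.rangeRestrict_surjective
    · rintro σ ⟨a, rfl⟩ p hp
      obtain ⟨i, rfl⟩ := hsur' p
      rw [← hφ] at hp
      exact hφK a (hstab a a.2 i hp)
  -- the classes
  have hKp : ∀ p : Quotient r, ∀ σ ∈ K, ∀ i, π (σ i) = p ↔ π i = p := by
    intro p σ hσ i
    rw [hinv σ hσ]
  have hcl : ∀ p : Quotient r, Ex (indHom K (fun i => π i = p) (hKp p)).range := by
    intro p
    refine ih1 _ _ ?_ ?_ ?_
    · haveI : Group.IsSolvable K :=
        Group.isSolvable_of_isSolvable_injective (Subgroup.inclusion_injective hKG)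
      exact Group.isSolvable_of_surjective
        (indHom K (fun i => π i = p) (hKp p)).rangeRestrict_surjective
    · refine lt_of_le_of_lt ?_ ih2
      exact Nat.card_le_card_of_surjective _
        (indHom K (fun i => π i = p) (hKp p)).rangeRestrict_surjective
    · rintro σ ⟨a, rfl⟩ i hi
      have h1 : (a : Equiv.Perm ι) i = i := congrArg Subtype.val hi
      have h2 : a = 1 := Subtype.ext (hsr a (hKG a.2) i h1)
      rw [h2, map_one]
  choose A0 h0 h0i using hcl
  refine comp_ex G hsr π hsur' φ.range hExb (fun σ hσ => ⟨φ ⟨σ, hσ⟩, ⟨_, rfl⟩,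
    fun i => hφ ⟨σ, hσ⟩ i⟩) A0 h0 ?_
  intro p σ hσ hp S hS
  obtain ⟨i, rfl⟩ := hsur' p
  have hσK : σ ∈ K := hstab σ hσ i (hp i rfl)
  exact h0i (π i) (indHom K (fun j => π j = π i) (hKp (π i)) ⟨σ, hσK⟩) ⟨_, rfl⟩ _ hS

/-- Solvable semiregular groups. -/
theorem solv_ex : ∀ (N : ℕ) (ι : Type) [Fintype ι] (G : Subgroup (Equiv.Perm ι)),
    Group.IsSolvable G → Nat.card G = N → (∀ σ ∈ G, ∀ i, σ i = i → σ = 1) → Ex G := by
  intro N
  induction N using Nat.strong_induction_on with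
  | _ N ih =>
    intro ι _ G hsolv hN hsr
    classical
    by_cases hnormal : ∃ K : Subgroup G, K.Normal ∧ K ≠ ⊥ ∧ K ≠ ⊤
    · obtain ⟨K, hKn, hKb, hKt⟩ := hnormal
      refine quo_ex G (K.map G.subtype) ?_ ?_ hsr ?_ hsolv ?_ ?_
      · rintro σ ⟨x, hx, rfl⟩
        exact x.2
      · rintro σ hσ ν ⟨x, hx, rfl⟩
        exact ⟨⟨σ, hσ⟩ * x * ⟨σ, hσ⟩⁻¹, hKn.conj_mem x hx ⟨σ, hσ⟩, rfl⟩
      · rw [Subgroup.ne_bot_iff_exists_ne_one] at hKb
        obtain ⟨⟨x, hx⟩, hx1⟩ := hKb
        refine ⟨x, ⟨x, hx, rfl⟩, ?_⟩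
        intro h
        apply hx1
        apply Subtype.ext
        exact Subtype.ext h
      · intro κ _ H hH hcard hsrH
        exact ih (Nat.card H) (by omega) κ H hH rfl hsrH
      · rw [Subgroup.card_map_of_injective G.subtype_injective]
        by_contra hcon
        push Not at hcon
        apply hKt
        exact Subgroup.eq_top_of_le_card K hcon
    · push Not at hnormal
      -- no normal subgroups: cyclic
      have hcyc : IsCyclic G := by
        rcases subsingleton_or_nontrivial G with hs | hn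
        · exact isCyclic_of_subsingleton
        · haveI : IsSimpleGroup G := ⟨fun K hK => by
            by_cases h : K = ⊥
            · exact Or.inl h
            · exact Or.inr (hnormal K hK h)⟩
          have hcomm := IsSimpleGroup.comm_iff_isSolvable.2 hsolv
          letI : CommGroup G := { mul_comm := hcomm }
          exact IsSimpleGroup.isCyclic
      obtain ⟨g, hg⟩ := hcyc.exists_generator
      refine cyc_ex G hsr g g.2 ?_
      intro σ hσ
      have h1 := hg ⟨σ, hσ⟩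
      rw [← mem_powers_iff_mem_zpowers] at h1
      obtain ⟨l, hl⟩ := h1
      exact ⟨l, (congrArg Subtype.val hl).symm⟩

/-- Solvable groups with a normal subgroup which contains all point stabilisers and has orbits of
length at most two. -/
theorem main_exists {n : ℕ} (G N : Subgroup (Equiv.Perm (Fin n))) (hsolv : Group.IsSolvable G)
    (hNG : N ≤ G) (hNn : ∀ σ ∈ G, ∀ ν ∈ N, σ * ν * σ⁻¹ ∈ N)
    (hst : ∀ σ ∈ G, ∀ i, σ i = i → σ ∈ N)
    (hN2 : ∀ x, ∀ s ∈ N, ∀ t ∈ N, s x = x ∨ t x = x ∨ s x = t x) :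
    ∃ T : HyS.LatticeTriangulation 2 n, HyS.Invariant G T := by
  obtain ⟨m, φ, hφ, -, hT⟩ := HyC.step G N hNG hNn hst hN2
  refine hT ?_
  obtain ⟨C, hC, hCi⟩ := solv_ex _ (Fin m) φ.range
    (Group.isSolvable_of_surjective φ.rangeRestrict_surjective) rfl (by
      rintro σ ⟨a, rfl⟩ p hp
      exact hφ a p hp)
  exact tot C hC φ.range hCi

end Pool.Agent.Lib.HyE
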