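import Pool.Agent.Lib.HyE.Bs

/-!
# HyE, row Cls: inner weights from inner degrees; uniqueness from the outer weights

PROOF IN WORDS. `uniq_inn`: for `p = π i` apply `(D.hA p).uniq` to the weights `fun a b : {i // D.π i = p} => u a b` and
the same for `v`: `IsW` is clear, the supports are `res D p (supp u)` (definitionally), and the degree
at `a` is `inn D.π u a` (sum over the subtype: `Finset.sum_subtype` / `Finset.sum_subtype_filter...`,
with `D.π a = p`). `uniq_of_out`: the outer weights agree, so `out` agrees, so `inn = deg - out`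
agrees (`deg_split`); now `uniq_inn`. `uniq_of_outer_zero`: both `out` vanish, so all outer weights
vanish (`le_out`, nonnegativity).
-/

set_option autoImplicit false

namespace Pool.Agent.Lib.HyE

open Finset

variable {ι κ : Type} [Fintype ι] [Fintype κ] [DecidableEq κ] (D : Dat ι κ)

private theorem cls_isW {u : ι → ι → ℝ} (hu : IsW u) (p : κ) :
    IsW (fun a b : {i // D.π i = p} => u a b) :=
  ⟨fun i j => hu.nn i j, fun i j => hu.sym i j, fun i => hu.dg i⟩

private theorem cls_deg (u : ι → ι → ℝ) (p : κ) (a : {i // D.π i = p}) :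
    deg (fun a b : {i // D.π i = p} => u a b) a = inn D.π u a := by
  unfold deg inn
  rw [a.2]
  exact (Finset.sum_subtype (univ.filter fun j => D.π j = p) (by simp) (fun j => u a j)).symm

theorem uniq_inn {u v : ι → ι → ℝ} (hu : IsW u) (hv : IsW v)
    (hiu : Inn D (supp u)) (hiv : Inn D (supp v)) (h : ∀ i, inn D.π u i = inn D.π v i) (i j : ι)
    (hij : D.π i = D.π j) : u i j = v i j :=
  (D.hA (D.π i)).uniq (fun a b : {k // D.π k = D.π i} => u a b)
    (fun a b : {k // D.π k = D.π i} => v a b) (cls_isW D hu _) (cls_isW D hv _) (hiu (D.π i))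
    (hiv (D.π i)) (fun a => by rw [cls_deg, cls_deg, h]) ⟨i, rfl⟩ ⟨j, hij.symm⟩

theorem uniq_of_out {u v : ι → ι → ℝ} (hu : IsW u) (hv : IsW v)
    (hiu : Inn D (supp u)) (hiv : Inn D (supp v)) (hd : ∀ i, deg u i = deg v i)
    (h : ∀ i j, D.π i ≠ D.π j → u i j = v i j) (i j : ι) : u i j = v i j := by
  by_cases hij : D.π i = D.π j
  · refine uniq_inn D hu hv hiu hiv (fun k => ?_) i j hij
    have ho : out D.π u k = out D.π v k := by
      unfold out
      refine Finset.sum_congr rfl fun l hl => ?_
      exact h k l fun e => (mem_filter.1 hl).2 e.symm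
    have h1 := hd k
    rw [deg_split D.π u k, deg_split D.π v k, ho] at h1
    linarith
  · exact h i j hij

theorem uniq_of_outer_zero {u v : ι → ι → ℝ} (hu : IsW u) (hv : IsW v)
    (hiu : Inn D (supp u)) (hiv : Inn D (supp v)) (hd : ∀ i, deg u i = deg v i)
    (h : ∀ i, out D.π u i = 0) (h' : ∀ i, out D.π v i = 0) (i j : ι) : u i j = v i j := by
  refine uniq_of_out D hu hv hiu hiv hd (fun k l hkl => ?_) i j
  have h1 := le_out D.π hu k l (fun e => hkl e.symm)
  have h2 := le_out D.π hv k l (fun e => hkl e.symm)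
  have h3 := hu.nn k l
  have h4 := hv.nn k l
  rw [h k] at h1
  rw [h' k] at h2
  linarith

end Pool.Agent.Lib.HyE
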