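import Pool.Agent.Lib.HyE.BF

/-!
# HyE, row UC1: both of type B with the same centre: the classes

PROOF IN WORDS. (`full_le`) `p = π b0` for some index (surjectivity). If the first alternative of `Full` holds then
`out v b = v c b = 0` for all `b` in `p` (`bf_out`), so the left side is zero, and the right side is
nonnegative. Otherwise all pairs in `p` contain `b` and `out v i = v c i = 0` for `i ≠ b` in `p`, so by
`star_out` the left side is `2 deg v b - cs (deg v) p`, and `low` for `u`. (`uniq_cls`) Let `O u p =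
cs (out u) p`. `∑ p ≠ π c, O u p = out u c = 2 deg u c - cs (deg u) (π c)` (`bf_sum'`, `bf_c`), the same for
`v`. Suppose `O u p ≠ O v p` for some `p ≠ π c`; take one with `ρ c p` smallest
(`Finset.exists_min_image`) and let `O u p > O v p` (the statement is symmetric in `u`, `v`; prove the
one-sided contradiction as a private lemma). As the sums over `p ≠ π c` agree there is `p' ≠ π c` with
`O u p' < O v p'` (otherwise `Finset.sum_lt_sum`). By minimality and injectivity
`ρ c p < ρ c p'`. `O v p' ≤ cs (deg v) p'` (`out ≤ deg`), so `O u p' < cs (deg u) p'`, so some `k` in `p'` has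
`inn u k > 0`, and there is `l` in `p'` with `u k l > 0` (`inn_pos`). By `B3` for `u` `p` is full, and
`full_le` gives `O u p ≤ O v p`. Contradiction.
-/

set_option autoImplicit false

namespace Pool.Agent.Lib.HyE

open Finset

variable {ι κ : Type} [Fintype ι] [Fintype κ] [DecidableEq κ] (D : Dat ι κ)

theorem full_le {u v : ι → ι → ℝ} (hu : IsW u) (hv : IsW v) {c : ι}
    (hB : B1 D c (supp v)) (hd : ∀ i, deg u i = deg v i) (p : κ) (hp : p ≠ D.π c)
    (hF : Full D c (supp v) p) : cs D.π (out D.π v) p ≤ cs D.π (out D.π u) p := by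
  rcases hF with h | ⟨b, hb, h1, h2⟩
  · have h0 : cs D.π (out D.π v) p = 0 := by
      unfold cs
      apply Finset.sum_eq_zero
      intro i hi
      have hi' : D.π i = p := (Finset.mem_filter.mp hi).2
      rw [bf_out D hv hB (by rw [hi']; exact hp)]
      have h3 : ¬ (0 < v c i) := h i hi'
      exact le_antisymm (not_lt.mp h3) (hv.nn c i)
    rw [h0]
    exact cs_nonneg D.π (fun i => out_nonneg D.π hu i) p
  · subst hb
    have hs := star_out D.π hv b
      (fun j k hj hk hjb hkb => by
        by_contra hne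
        have hpos : supp v j k := lt_of_le_of_ne (hv.nn j k) (Ne.symm hne)
        rcases h1 j k hj hk hpos with h | h
        · exact hjb h
        · exact hkb h)
      (fun j hj hjb => by
        rw [bf_out D hv hB (by rw [hj]; exact hp)]
        by_contra hne
        have hpos : supp v c j := lt_of_le_of_ne (hv.nn c j) (Ne.symm hne)
        exact hjb (h2 j hj hpos))
    have hl := low D.π hu b
    have hc : cs D.π (deg u) (D.π b) = cs D.π (deg v) (D.π b) := by
      unfold cs
      exact Finset.sum_congr rfl (fun i _ => hd i)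
    rw [hs.1, hs.2, ← hd b, ← hc]
    exact hl

private theorem cs_deg_eq (u : ι → ι → ℝ) (p : κ) :
    cs D.π (deg u) p = cs D.π (inn D.π u) p + cs D.π (out D.π u) p := by
  unfold cs
  rw [← Finset.sum_add_distrib]
  exact Finset.sum_congr rfl (fun i _ => deg_split D.π u i)

private theorem one_sided {u v : ι → ι → ℝ} (hu : IsW u) (hv : IsW v) {c : ι}
    (hB : B1 D c (supp u)) (hB' : B1 D c (supp v)) (h3 : B3 D c (supp u))
    (hd : ∀ i, deg u i = deg v i) (p : κ) (hp : p ≠ D.π c)
    (hlt : cs D.π (out D.π v) p < cs D.π (out D.π u) p)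
    (hmin : ∀ q, q ≠ D.π c → cs D.π (out D.π u) q ≠ cs D.π (out D.π v) q →
      D.ρ c p ≤ D.ρ c q) : False := by
  have hcd : ∀ q, cs D.π (deg u) q = cs D.π (deg v) q := by
    intro q
    unfold cs
    exact Finset.sum_congr rfl (fun i _ => hd i)
  have hsum : ∑ q ∈ univ.filter (fun q => q ≠ D.π c), cs D.π (out D.π u) q =
      ∑ q ∈ univ.filter (fun q => q ≠ D.π c), cs D.π (out D.π v) q := by
    rw [← bf_sum' D hu hB, ← bf_sum' D hv hB', (bf_c D hu hB).2, (bf_c D hv hB').2, hd c,
      hcd (D.π c)]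
  obtain ⟨p', hp', hlt'⟩ : ∃ p', p' ≠ D.π c ∧
      cs D.π (out D.π u) p' < cs D.π (out D.π v) p' := by
    by_contra hno
    push Not at hno
    have : ∑ q ∈ univ.filter (fun q => q ≠ D.π c), cs D.π (out D.π v) q <
        ∑ q ∈ univ.filter (fun q => q ≠ D.π c), cs D.π (out D.π u) q := by
      apply Finset.sum_lt_sum
      · intro q hq
        exact hno q (Finset.mem_filter.mp hq).2
      · exact ⟨p, Finset.mem_filter.mpr ⟨Finset.mem_univ _, hp⟩, hlt⟩
    exact absurd hsum (ne_of_gt this)
  have hle := hmin p' hp' (ne_of_lt hlt')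
  have hne : p ≠ p' := by
    intro h
    subst h
    exact lt_asymm hlt hlt'
  have hρ : D.ρ c p < D.ρ c p' := lt_of_le_of_ne hle (fun h => hne (D.hρ c h))
  have h1 : 0 ≤ cs D.π (inn D.π v) p' := cs_nonneg D.π (fun i => inn_nonneg D.π hv i) p'
  have h2 := cs_deg_eq D v p'
  have h4 := cs_deg_eq D u p'
  have h5 : 0 < cs D.π (inn D.π u) p' := by
    have := hcd p'
    linarith
  obtain ⟨k, hk, hkpos⟩ : ∃ k, D.π k = p' ∧ 0 < inn D.π u k := by
    by_contra hno
    push Not at hno
    have : cs D.π (inn D.π u) p' ≤ 0 := by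
      unfold cs
      exact Finset.sum_nonpos (fun i hi => hno i (Finset.mem_filter.mp hi).2)
    linarith
  obtain ⟨l, hl, hlpos⟩ := inn_pos D.π hu hkpos
  have hfull := h3 p p' hp hp' hρ ⟨k, l, hk, hl.trans hk, hlpos⟩
  have := full_le D hv hu hB (fun i => (hd i).symm) p hp hfull
  exact absurd hlt (not_lt.mpr this)

theorem uniq_cls {u v : ι → ι → ℝ} (hu : IsW u) (hv : IsW v) {c : ι}
    (hB : B1 D c (supp u)) (hB' : B1 D c (supp v)) (h3 : B3 D c (supp u)) (h3' : B3 D c (supp v))
    (hd : ∀ i, deg u i = deg v i) (p : κ) (hp : p ≠ D.π c) :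
    cs D.π (out D.π u) p = cs D.π (out D.π v) p := by
  classical
  by_contra hne
  obtain ⟨p0, hp0, hmin⟩ := Finset.exists_min_image
    (univ.filter (fun q => q ≠ D.π c ∧ cs D.π (out D.π u) q ≠ cs D.π (out D.π v) q))
    (D.ρ c) ⟨p, Finset.mem_filter.mpr ⟨Finset.mem_univ _, hp, hne⟩⟩
  have hp0' := (Finset.mem_filter.mp hp0).2
  rcases lt_or_gt_of_ne hp0'.2 with h | h
  · exact one_sided D hv hu hB' hB h3' (fun i => (hd i).symm) p0 hp0'.1 h
      (fun q hq hqne => hmin q (Finset.mem_filter.mpr ⟨Finset.mem_univ _, hq, Ne.symm hqne⟩))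
  · exact one_sided D hu hv hB hB' h3 hd p0 hp0'.1 h
      (fun q hq hqne => hmin q (Finset.mem_filter.mpr ⟨Finset.mem_univ _, hq, hqne⟩))

end Pool.Agent.Lib.HyE
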