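import Pool.Agent.Lib.HyE.Bs

/-!
# HyE, row Bt: consequences of the basic identity

PROOF IN WORDS. `key`: `deg_split` summed over the class gives `cs deg = cs inn + cs out`; insert `cs_inn`
and `inn i = deg i - out i`. `le_cs`: a single nonnegative term. `low`: `key` gives
`2 deg i - cs deg = 2 out i - rst i - cs out ≤ 2 out i - cs out ≤ cs out` (`le_cs`). `low_eq`: equality
forces `rst i = 0` and `out i = cs out`, so the other (nonnegative) terms of `cs out` are zero.
`star_out`: `rst i = 0`, `cs out = out i` (the other terms are zero), `key`. `cs_sum`: both sides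
are the sum over the indices outside `q`, ordered by class (`Finset.sum_fiberwise` ...).
`cs_out_split`: for `j` outside `q`, `out j = ∑ i ∈ q, u j i + ∑ i, π i ≠ q, π i ≠ π j, u j i`;
the first double sum is `cs (out u) q` by symmetry (for `i ∈ q` `out i = ∑ j, π j ≠ q, u i j`).
`cs_out_le`, `cs_out_eq`: the remaining double sum is nonnegative, and if it is zero all its terms
are.
-/

set_option autoImplicit false

namespace Pool.Agent.Lib.HyE

open Finset

variable {ι κ : Type} [Fintype ι] [DecidableEq κ] (π : ι → κ)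

theorem key {u : ι → ι → ℝ} (hu : IsW u) (i : ι) :
    cs π (deg u) (π i) =
      2 * deg u i + rst π u i + cs π (out π u) (π i) - 2 * out π u i := by
  have h1 : cs π (deg u) (π i) = cs π (inn π u) (π i) + cs π (out π u) (π i) := by
    unfold cs
    rw [← Finset.sum_add_distrib]
    exact Finset.sum_congr rfl fun j _ => deg_split π u j
  have h2 := deg_split π u i
  rw [h1, cs_inn π hu i]
  linarith

theorem cs_nonneg {x : ι → ℝ} (hx : ∀ i, 0 ≤ x i) (p : κ) : 0 ≤ cs π x p := by
  exact Finset.sum_nonneg fun i _ => hx i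

theorem le_cs {x : ι → ℝ} (hx : ∀ i, 0 ≤ x i) (i : ι) : x i ≤ cs π x (π i) := by
  exact Finset.single_le_sum (f := x) (fun j _ => hx j) (Finset.mem_filter.2 ⟨Finset.mem_univ i, rfl⟩)

/-- two different elements of a class -/
theorem le_cs2 {x : ι → ℝ} (hx : ∀ i, 0 ≤ x i) (i j : ι) (hij : i ≠ j) (h : π j = π i) :
    x i + x j ≤ cs π x (π i) := by
  classical
  rw [← Finset.sum_pair hij]
  refine Finset.sum_le_sum_of_subset_of_nonneg ?_ fun k _ _ => hx k
  intro k hk
  rw [Finset.mem_insert, Finset.mem_singleton] at hk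
  rcases hk with rfl | rfl
  · exact Finset.mem_filter.2 ⟨Finset.mem_univ _, rfl⟩
  · exact Finset.mem_filter.2 ⟨Finset.mem_univ _, h⟩

theorem low {u : ι → ι → ℝ} (hu : IsW u) (i : ι) :
    2 * deg u i - cs π (deg u) (π i) ≤ cs π (out π u) (π i) := by
  have h1 := key π hu i
  have h2 := le_cs π (out_nonneg π hu) i
  have h3 := rst_nonneg π hu i
  linarith

theorem low_eq {u : ι → ι → ℝ} (hu : IsW u) (i : ι)
    (h : 2 * deg u i - cs π (deg u) (π i) = cs π (out π u) (π i)) :
    out π u i = cs π (out π u) (π i) ∧ (∀ j, π j = π i → j ≠ i → out π u j = 0) ∧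
      ∀ j k, π j = π i → π k = π i → j ≠ i → k ≠ i → u j k = 0 := by
  have h1 := key π hu i
  have h2 := le_cs π (out_nonneg π hu) i
  have h3 := rst_nonneg π hu i
  have h4 : out π u i = cs π (out π u) (π i) := by linarith
  have h5 : rst π u i = 0 := by linarith
  refine ⟨h4, fun j hj hji => ?_, (rst_zero π hu i).1 h5⟩
  have h6 := le_cs2 π (out_nonneg π hu) i j (Ne.symm hji) hj
  have h7 := out_nonneg π hu j
  linarith

theorem star_out {u : ι → ι → ℝ} (hu : IsW u) (i : ι)
    (h1 : ∀ j k, π j = π i → π k = π i → j ≠ i → k ≠ i → u j k = 0)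
    (h2 : ∀ j, π j = π i → j ≠ i → out π u j = 0) :
    cs π (out π u) (π i) = out π u i ∧ out π u i = 2 * deg u i - cs π (deg u) (π i) := by
  have h3 : rst π u i = 0 := (rst_zero π hu i).2 h1
  have h4 : cs π (out π u) (π i) = out π u i := by
    refine Finset.sum_eq_single i (fun j hj hji => ?_) fun h => ?_
    · exact h2 j (Finset.mem_filter.1 hj).2 hji
    · exact (h (Finset.mem_filter.2 ⟨Finset.mem_univ i, rfl⟩)).elim
  have h5 := key π hu i
  refine ⟨h4, ?_⟩
  linarith

theorem cs_sum [Fintype κ] (x : ι → ℝ) (q : κ) :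
    ∑ p ∈ univ.filter (fun p => p ≠ q), cs π x p =
      ∑ j ∈ univ.filter (fun j => π j ≠ q), x j := by
  have h := Finset.sum_fiberwise_of_maps_to (s := univ.filter (fun j => π j ≠ q)) (t := univ.filter (fun p => p ≠ q))
    (g := π) (fun i hi => Finset.mem_filter.2 ⟨Finset.mem_univ _, (Finset.mem_filter.1 hi).2⟩) x
  rw [← h]
  refine Finset.sum_congr rfl fun p hp => ?_
  unfold cs
  rw [Finset.filter_filter]
  refine Finset.sum_congr (Finset.filter_congr fun i _ => ?_) fun _ _ => rfl
  constructor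
  · intro hi
    exact ⟨hi ▸ (Finset.mem_filter.1 hp).2, hi⟩
  · exact fun hi => hi.2

theorem cs_total [Fintype κ] (x : ι → ℝ) : ∑ p, cs π x p = ∑ j, x j := by
  unfold cs
  exact Finset.sum_fiberwise univ π x

private theorem bt_split {u : ι → ι → ℝ} (hu : IsW u) (q : κ) :
    ∑ j ∈ univ.filter (fun j => π j ≠ q), out π u j = cs π (out π u) q +
      ∑ j ∈ univ.filter (fun j => π j ≠ q), ∑ k ∈ univ.filter (fun k => π k ≠ q ∧ π k ≠ π j), u j k := by
  have h1 : ∀ j ∈ univ.filter (fun j => π j ≠ q), out π u j =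
      ∑ k ∈ univ.filter (fun k => π k = q), u j k +
        ∑ k ∈ univ.filter (fun k => π k ≠ q ∧ π k ≠ π j), u j k := by
    intro j hj
    have hj' : π j ≠ q := (Finset.mem_filter.1 hj).2
    unfold out
    rw [← Finset.sum_filter_add_sum_filter_not (univ.filter (fun k => ¬ π k = π j)) (fun k => π k = q) (fun k => u j k),
      Finset.filter_filter, Finset.filter_filter]
    congr 1
    · refine Finset.sum_congr (Finset.filter_congr fun k _ => ?_) fun _ _ => rfl
      constructor
      · exact fun h => h.2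
      · exact fun h => ⟨fun h' => hj' (h' ▸ h), h⟩
    · refine Finset.sum_congr (Finset.filter_congr fun k _ => ?_) fun _ _ => rfl
      constructor
      · exact fun h => ⟨h.2, h.1⟩
      · exact fun h => ⟨h.2, h.1⟩
  rw [Finset.sum_congr rfl h1, Finset.sum_add_distrib]
  congr 1
  rw [Finset.sum_comm]
  unfold cs
  refine Finset.sum_congr rfl fun k hk => ?_
  have hk' : π k = q := (Finset.mem_filter.1 hk).2
  unfold out
  refine Finset.sum_congr (Finset.filter_congr fun j _ => ?_) fun j _ => hu.sym j k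
  rw [hk']

theorem cs_out_le {u : ι → ι → ℝ} (hu : IsW u) (q : κ) :
    cs π (out π u) q ≤ ∑ j ∈ univ.filter (fun j => π j ≠ q), out π u j := by
  rw [bt_split π hu q]
  have h : 0 ≤ ∑ j ∈ univ.filter (fun j => π j ≠ q), ∑ k ∈ univ.filter (fun k => π k ≠ q ∧ π k ≠ π j), u j k :=
    Finset.sum_nonneg fun j _ => Finset.sum_nonneg fun k _ => hu.nn j k
  linarith

theorem cs_out_eq {u : ι → ι → ℝ} (hu : IsW u) (q : κ)
    (h : ∑ j ∈ univ.filter (fun j => π j ≠ q), out π u j ≤ cs π (out π u) q) (i j : ι)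
    (hi : π i ≠ q) (hj : π j ≠ q) (hij : π i ≠ π j) : u i j = 0 := by
  rw [bt_split π hu q] at h
  have h0 : ∀ j k, 0 ≤ u j k := hu.nn
  have h1 : ∑ k ∈ univ.filter (fun k => π k ≠ q ∧ π k ≠ π i), u i k ≤
      ∑ j ∈ univ.filter (fun j => π j ≠ q), ∑ k ∈ univ.filter (fun k => π k ≠ q ∧ π k ≠ π j), u j k :=
    Finset.single_le_sum (f := fun j => ∑ k ∈ univ.filter (fun k => π k ≠ q ∧ π k ≠ π j), u j k)
      (fun j _ => Finset.sum_nonneg fun k _ => h0 j k) (Finset.mem_filter.2 ⟨Finset.mem_univ i, hi⟩)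
  have h2 : u i j ≤ ∑ k ∈ univ.filter (fun k => π k ≠ q ∧ π k ≠ π i), u i k :=
    Finset.single_le_sum (f := fun k => u i k) (fun k _ => h0 i k)
      (Finset.mem_filter.2 ⟨Finset.mem_univ j, hj, Ne.symm hij⟩)
  have h3 := h0 i j
  linarith

end Pool.Agent.Lib.HyE
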