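import Pool.Agent.Lib.HyE.Fib
import Pool.Agent.Lib.HyE.Bt

/-!
# HyE, row ExP: existence, type B: the numbers

PROOF IN WORDS. Let `s p = cs D.π x p`, `Y p = max 0 (2 x (rep p) - s p)`, `q0 = q`, `c = rep q`. By `hB` `Y q > ∑ p ≠ q, Y p ≥ 0`, so
`Y q = 2 x c - s q`. Let `μ p = (s p - Y p) / 2` for `p ≠ q` (`≥ 0`: `Y p ≤ s p` as `x (rep p) ≤ s p`, `le_cs`),
`μ q = 0`, `τ = (∑ p ≠ q, s p - Y q) / 2`. `τ ≥ 0`: `∑ p ≠ q, s p = ∑ x - s q` (`cs_total`), so
`2 τ = ∑ x - 2 x c ≥ 0`. `τ ≤ ∑ μ` as `∑ p ≠ q, Y p ≤ Y q`. Let `w` be from `fill` with the rank `D.ρ c`, and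
`O p = s p - 2 w p` for `p ≠ q`: `Y p ≤ O p ≤ s p`, `∑ p ≠ q, O p = Y q`. For every `p ≠ q` `fib` (rank `D.r c`)
applies (`2 x i - s p ≤ 2 x (rep p) - s p ≤ Y p ≤ O p`) and gives `o_p`; let `o i = o_(π i) i` for `π i ≠ q` and
`o i = 0` for `π i = q`. The last two statements: if `w p' ≠ 0`, that is `O p' < s p'`, then for `ρ c p < ρ c p'`
`w p = μ p` (the alternative `w p' = 0` is excluded), that is `O p = Y p`.
-/

set_option autoImplicit false

namespace Pool.Agent.Lib.HyE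

open Finset

variable {ι κ : Type} [Fintype ι] [Fintype κ] [DecidableEq κ] (D : Dat ι κ)

theorem ex_num (x : ι → ℝ) (hx : ∀ i, 0 ≤ x i) (hx2 : ∀ i, 2 * x i ≤ ∑ j, x j)
    (rep : κ → ι) (hrep : ∀ p, D.π (rep p) = p)
    (hmax : ∀ i, x i ≤ x (rep (D.π i))) (q : κ)
    (hB : ∑ p, max 0 (2 * x (rep p) - cs D.π x p) <
      2 * max 0 (2 * x (rep q) - cs D.π x q)) :
    ∃ (O : κ → ℝ) (o : ι → ℝ),
      (∀ i, D.π i = q → o i = 0) ∧
      (∀ i, D.π i ≠ q → 0 ≤ o i ∧ o i ≤ x i ∧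
        2 * (x i - o i) ≤ cs D.π x (D.π i) - O (D.π i)) ∧
      (∀ p, p ≠ q → cs D.π o p = O p) ∧
      (∀ i j, D.π i ≠ q → D.π j = D.π i → D.r (rep q) i < D.r (rep q) j →
        o i = x i ∨ o j = 0 ∨ 2 * (x j - o j) = cs D.π x (D.π i) - O (D.π i)) ∧
      (∑ i, o i = 2 * x (rep q) - cs D.π x q) ∧ (0 < 2 * x (rep q) - cs D.π x q) ∧
      (∀ p p', p ≠ q → p' ≠ q → D.ρ (rep q) p < D.ρ (rep q) p' → O p' < cs D.π x p' →
        O p = max 0 (2 * x (rep p) - cs D.π x p)) := by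
  classical
  obtain ⟨S, hS⟩ : ∃ S : κ → ℝ, S = fun p => cs D.π x p := ⟨_, rfl⟩
  have hSp : ∀ p, cs D.π x p = S p := fun p => by rw [hS]
  obtain ⟨Y, hY⟩ : ∃ Y : κ → ℝ, Y = fun p => max 0 (2 * x (rep p) - S p) := ⟨_, rfl⟩
  have hYp : ∀ p, max 0 (2 * x (rep p) - cs D.π x p) = Y p := fun p => by rw [hY, hSp]
  have hB' : ∑ p, Y p < 2 * Y q := by
    rw [← hYp q]
    refine lt_of_le_of_lt (le_of_eq ?_) hB
    exact Finset.sum_congr rfl fun p _ => (hYp p).symm
  have hY0 : ∀ p, 0 ≤ Y p := fun p => by rw [← hYp p]; exact le_max_left _ _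
  have hYge : ∀ p, 2 * x (rep p) - S p ≤ Y p := fun p => by
    rw [← hYp p, hSp p]; exact le_max_right _ _
  have hS0 : ∀ p, 0 ≤ S p := fun p => by rw [← hSp p]; exact cs_nonneg D.π hx p
  have hxr : ∀ p, x (rep p) ≤ S p := by
    intro p
    have h := le_cs D.π hx (rep p)
    rw [hrep p, hSp p] at h
    exact h
  have hYS : ∀ p, Y p ≤ S p := by
    intro p
    rw [← hYp p, hSp p]
    refine max_le (hS0 p) ?_
    have := hxr p
    linarith
  have hsplit : ∀ f : κ → ℝ, f q + ∑ p ∈ univ.erase q, f p = ∑ p, f p := fun f =>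
    Finset.add_sum_erase univ f (mem_univ q)
  have hYE := hsplit Y
  have hYE0 : 0 ≤ ∑ p ∈ univ.erase q, Y p := Finset.sum_nonneg fun p _ => hY0 p
  have hYq : 0 < Y q := by linarith
  have hYq2 : Y q = 2 * x (rep q) - S q := by
    rcases le_total (2 * x (rep q) - S q) 0 with h | h
    · have h1 : Y q = 0 := by
        rw [← hYp q, hSp q]
        exact max_eq_left h
      linarith
    · rw [← hYp q, hSp q]
      exact max_eq_right h
  have hSE := hsplit S
  have hST : ∑ p, S p = ∑ j, x j := by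
    rw [← cs_total D.π x]
    exact Finset.sum_congr rfl fun p _ => (hSp p).symm
  obtain ⟨μ, hμ⟩ : ∃ μ : κ → ℝ, μ = fun p => if p = q then 0 else (S p - Y p) / 2 := ⟨_, rfl⟩
  have hμq : μ q = 0 := by rw [hμ]; simp
  have hμp : ∀ p, p ≠ q → μ p = (S p - Y p) / 2 := fun p hp => by rw [hμ]; simp [hp]
  have hμ0 : ∀ p, 0 ≤ μ p := by
    intro p
    by_cases hp : p = q
    · rw [hp, hμq]
    · rw [hμp p hp]
      have := hYS p
      linarith
  have hμE : ∑ p ∈ univ.erase q, μ p =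
      (∑ p ∈ univ.erase q, S p - ∑ p ∈ univ.erase q, Y p) / 2 := by
    rw [← Finset.sum_sub_distrib, Finset.sum_div]
    exact Finset.sum_congr rfl fun p hp => hμp p (Finset.ne_of_mem_erase hp)
  have hμT := hsplit μ
  have hxq := hx2 (rep q)
  obtain ⟨w, hw, hwT, hwo⟩ := fill (D.ρ (rep q)) (D.hρ (rep q)) μ hμ0
    ((∑ p ∈ univ.erase q, S p - Y q) / 2) (by linarith) (by linarith)
  have hwq : w q = 0 := by
    have h := hw q
    rw [hμq] at h
    exact le_antisymm h.2 h.1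
  have hwE := hsplit w
  have hOr : ∀ p, p ≠ q → Y p ≤ S p - 2 * w p ∧ S p - 2 * w p ≤ S p := by
    intro p hp
    have h := hw p
    rw [hμp p hp] at h
    constructor <;> linarith [h.1, h.2]
  have hfib : ∀ p, p ≠ q → ∃ o : ι → ℝ,
      (∀ i, D.π i = p → 0 ≤ o i ∧ o i ≤ x i ∧
        2 * (x i - o i) ≤ cs D.π x p - (S p - 2 * w p)) ∧
      cs D.π o p = S p - 2 * w p ∧ ∀ i j, D.π i = p → D.π j = p →
        D.r (rep q) i < D.r (rep q) j →
        o i = x i ∨ o j = 0 ∨ 2 * (x j - o j) = cs D.π x p - (S p - 2 * w p) := by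
    intro p hp
    have h := hOr p hp
    refine fib D.π (D.r (rep q)) (D.hr (rep q)) x hx p (S p - 2 * w p) ?_ ?_ ?_
    · have := hY0 p
      linarith
    · rw [hSp p]
      exact h.2
    · intro i hi
      have h1 := hmax i
      rw [hi] at h1
      have h2 := hYge p
      rw [hSp p]
      linarith [h.1]
  choose F hF1 hF2 hF3 using hfib
  obtain ⟨o, ho⟩ : ∃ o : ι → ℝ, o = fun i => if h : D.π i = q then 0 else F (D.π i) h i :=
    ⟨_, rfl⟩
  have hoq : ∀ i, D.π i = q → o i = 0 := fun i hi => by rw [ho]; simp [hi]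
  have hop : ∀ p (h : p ≠ q) (i : ι), D.π i = p → o i = F p h i := by
    rintro p h i rfl
    rw [ho]
    simp [h]
  have hco : ∀ p, p ≠ q → cs D.π o p = S p - 2 * w p := by
    intro p hp
    rw [← hF2 p hp]
    unfold cs
    refine Finset.sum_congr rfl fun i hi => ?_
    exact hop p hp i (Finset.mem_filter.1 hi).2
  have hcoq : cs D.π o q = 0 := by
    unfold cs
    exact Finset.sum_eq_zero fun i hi => hoq i (Finset.mem_filter.1 hi).2
  refine ⟨fun p => S p - 2 * w p, o, hoq, ?_, hco, ?_, ?_, ?_, ?_⟩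
  · intro i hi
    rw [hop (D.π i) hi i rfl]
    exact hF1 (D.π i) hi i rfl
  · intro i j hi hj hr
    rw [hop (D.π i) hi i rfl, hop (D.π i) hi j hj]
    exact hF3 (D.π i) hi i j rfl hj hr
  · have h1 : ∑ i, o i = ∑ p, cs D.π o p := (cs_total D.π o).symm
    have h2 := hsplit (fun p => cs D.π o p)
    have h3 : ∑ p ∈ univ.erase q, cs D.π o p = ∑ p ∈ univ.erase q, (S p - 2 * w p) :=
      Finset.sum_congr rfl fun p hp => hco p (Finset.ne_of_mem_erase hp)
    rw [Finset.sum_sub_distrib, ← Finset.mul_sum] at h3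
    rw [hSp q]
    linarith
  · rw [hSp q]
    linarith
  · intro p p' hp hp' hr hO
    rw [hYp p]
    have hO' : S p' - 2 * w p' < S p' := by
      rw [← hSp p']
      have h := hO
      simp only [hSp p'] at h ⊢
      exact h
    rcases hwo p p' hr with h | h
    · rw [hμp p hp] at h
      show S p - 2 * w p = Y p
      linarith
    · exfalso
      linarith

end Pool.Agent.Lib.HyE
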