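import Pool.Agent.Lib.HyE.Cls

/-!
# HyE, row Glu: gluing inner and outer weights

PROOF IN WORDS. For every class `p` apply `(D.hA p).exi` to `fun a : {i // D.π i = p} => y a`: nonnegative, and
`2 y a ≤ ∑ b, y b` as the sum over the subtype is `cs D.π y p` (`Finset.sum_subtype`). This gives `U p`. Let
`u i j = U (π i) ⟨i, rfl⟩ ⟨j, h⟩` if `h : π j = π i` and `u i j = W i j` otherwise. For `a b : {i // π i = p}`
`u a b = U p a b` (take `a = ⟨i, h⟩` and `subst`). `IsW u`: nonnegative, zero on the diagonal, symmetric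
(both cases). `res D p (supp u) = supp (U p)` (funext), so `Inn`. `inn u i = deg (U (π i)) ⟨i, rfl⟩ = y i`
(sum over the subtype), `out u i = ∑ j, ¬ π j = π i, W i j = deg W i` (the other terms are zero).
-/

set_option autoImplicit false

namespace Pool.Agent.Lib.HyE

open Finset

variable {ι κ : Type} [Fintype ι] [Fintype κ] [DecidableEq κ] (D : Dat ι κ)

theorem glue (y : ι → ℝ) (hy : ∀ i, 0 ≤ y i) (hb : ∀ i, 2 * y i ≤ cs D.π y (D.π i))
    (W : ι → ι → ℝ) (hW : IsW W) (hW0 : ∀ i j, D.π i = D.π j → W i j = 0) :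
    ∃ u : ι → ι → ℝ, IsW u ∧ Inn D (supp u) ∧ (∀ i j, D.π i ≠ D.π j → u i j = W i j) ∧
      (∀ i, inn D.π u i = y i) ∧ ∀ i, out D.π u i = deg W i := by
  classical
  have hex : ∀ p, ∃ U : {i // D.π i = p} → {i // D.π i = p} → ℝ,
      IsW U ∧ D.A p (supp U) ∧ ∀ a, deg U a = y a := by
    intro p
    refine (D.hA p).exi (fun a => y a) (fun a => hy a) ?_
    intro a
    have h := hb a
    rw [a.2] at h
    have hs : cs D.π y p = ∑ b : {i // D.π i = p}, y b := by
      unfold cs
      exact Finset.sum_subtype _ (by simp) y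
    rw [← hs]
    exact h
  choose U hU1 hU2 hU3 using hex
  let u : ι → ι → ℝ := fun i j =>
    if h : D.π j = D.π i then U (D.π i) ⟨i, rfl⟩ ⟨j, h⟩ else W i j
  have hu1 : ∀ p (a b : {i // D.π i = p}), u a b = U p a b := by
    rintro p ⟨i, rfl⟩ ⟨j, hj⟩
    simp only [u, dif_pos hj]
  have hu2 : ∀ i j, D.π i ≠ D.π j → u i j = W i j := by
    intro i j hij
    simp only [u, dif_neg (fun h : D.π j = D.π i => hij h.symm)]
  refine ⟨u, ⟨?_, ?_, ?_⟩, ?_, hu2, ?_, ?_⟩
  · intro i j
    by_cases h : D.π j = D.π i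
    · have := hu1 (D.π i) ⟨i, rfl⟩ ⟨j, h⟩
      simp only at this
      rw [this]
      exact (hU1 _).nn _ _
    · rw [hu2 i j (fun h' => h h'.symm)]
      exact hW.nn i j
  · intro i j
    by_cases h : D.π j = D.π i
    · have h1 := hu1 (D.π i) ⟨i, rfl⟩ ⟨j, h⟩
      have h2 := hu1 (D.π i) ⟨j, h⟩ ⟨i, rfl⟩
      simp only at h1 h2
      rw [h1, h2]
      exact (hU1 _).sym _ _
    · rw [hu2 i j (fun h' => h h'.symm), hu2 j i h]
      exact hW.sym i j
  · intro i
    have h1 := hu1 (D.π i) ⟨i, rfl⟩ ⟨i, rfl⟩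
    simp only at h1
    rw [h1]
    exact (hU1 _).dg _
  · intro p
    have h1 : res D p (supp u) = supp (U p) := by
      funext a b
      show (0 < u a b) = (0 < U p a b)
      rw [hu1 p a b]
    rw [h1]
    exact hU2 p
  · intro i
    have h1 : inn D.π u i = ∑ b : {j // D.π j = D.π i}, u i b := by
      unfold inn
      exact Finset.sum_subtype _ (by simp) (fun j => u i j)
    rw [h1, ← hU3 (D.π i) ⟨i, rfl⟩]
    unfold deg
    refine Finset.sum_congr rfl fun b _ => ?_
    exact hu1 (D.π i) ⟨i, rfl⟩ b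
  · intro i
    unfold out deg
    rw [Finset.sum_filter]
    refine Finset.sum_congr rfl fun j _ => ?_
    by_cases h : D.π j = D.π i
    · simp only [h, not_true_eq_false, if_false]
      exact (hW0 i j h.symm).symm
    · simp only [h, not_false_eq_true, if_true]
      exact hu2 i j (fun h' => h h'.symm)

end Pool.Agent.Lib.HyE
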