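import Pool.Agent.Lib.HyE.Defs

/-!
# HyE, row Rnk: equivariant orders

PROOF IN WORDS. The same proof as in Lib/HyC/Rnk.lean (landed), with finite types: choose a representative `R i` of the
`G`-orbit of `i` and `g i ∈ G` with `g i (R i) = i`, an injective `f : κ → ℕ` (`Fintype.equivFin`), a section
`l` of `π`; `ρ i p = f (π ((g i)⁻¹ (l p)))`. For `κ = ι`, `π = id` this also gives orders of the indices.
-/

set_option autoImplicit false

namespace Pool.Agent.Lib.HyE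

open Finset

private theorem inv_app {α : Type} (σ : Equiv.Perm α) (x : α) : σ⁻¹ (σ x) = x := σ.symm_apply_apply x

private theorem app_inv {α : Type} (σ : Equiv.Perm α) (x : α) : σ (σ⁻¹ x) = x := σ.apply_symm_apply x

theorem rank_exists {ι κ : Type} [Fintype ι] [Fintype κ] (π : ι → κ)
    (hsur : Function.Surjective π) (G : Subgroup (Equiv.Perm ι))
    (hst : ∀ σ ∈ G, ∀ i, σ i = i → ∀ j, π (σ j) = π j)
    (hcl : ∀ σ ∈ G, ∀ i j, π i = π j → π (σ i) = π (σ j)) :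
    ∃ ρ : ι → κ → ℕ, (∀ i, Function.Injective (ρ i)) ∧
      ∀ σ ∈ G, ∀ i j, ρ (σ i) (π (σ j)) = ρ i (π j) := by
  classical
  let s : Setoid (ι) :=
    { r := fun i j => ∃ σ ∈ G, σ i = j
      iseqv :=
        { refl := fun i => ⟨1, G.one_mem, rfl⟩
          symm := by
            rintro i j ⟨σ, hσ, h⟩
            exact ⟨σ⁻¹, G.inv_mem hσ, by rw [← h, inv_app]⟩
          trans := by
            rintro i j k ⟨σ, hσ, h⟩ ⟨τ, hτ, h'⟩
            exact ⟨τ * σ, G.mul_mem hτ hσ, by rw [Equiv.Perm.mul_apply, h, h']⟩ } }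
  obtain ⟨r, hr⟩ : ∃ r : ι → ι, ∀ i, r i = (Quotient.mk s i).out := ⟨_, fun _ => rfl⟩
  have hr1 : ∀ i, ∃ σ ∈ G, σ (r i) = i := by
    intro i
    have h1 : Quotient.mk s (r i) = Quotient.mk s i := by
      rw [hr i]
      exact Quotient.out_eq (Quotient.mk s i)
    exact Quotient.exact h1
  have hrc : ∀ σ ∈ G, ∀ i, r (σ i) = r i := by
    intro σ hσ i
    have h1 : Quotient.mk s (σ i) = Quotient.mk s i :=
      Quotient.sound ⟨σ⁻¹, G.inv_mem hσ, by rw [inv_app]⟩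
    rw [hr, hr, h1]
  choose g hgG hg using hr1
  choose l hl using hsur
  have hf : Function.Injective (fun p : κ => ((Fintype.equivFin κ) p : ℕ)) := fun p q h =>
    (Fintype.equivFin κ).injective (Fin.ext h)
  have key : ∀ i j, π ((g i)⁻¹ (l (π j))) = π ((g i)⁻¹ j) := fun i j =>
    hcl (g i)⁻¹ (G.inv_mem (hgG i)) _ _ (hl (π j))
  refine ⟨fun i p => ((Fintype.equivFin κ) (π ((g i)⁻¹ (l p))) : ℕ), ?_, ?_⟩
  · intro i p q h
    have h1 : π ((g i)⁻¹ (l p)) = π ((g i)⁻¹ (l q)) := hf h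
    have h2 := hcl (g i) (hgG i) _ _ h1
    rw [app_inv, app_inv, hl, hl] at h2
    exact h2
  · intro σ hσ i j
    have hκ : (g (σ i))⁻¹ * σ * g i ∈ G :=
      G.mul_mem (G.mul_mem (G.inv_mem (hgG (σ i))) hσ) (hgG i)
    have hfix : ((g (σ i))⁻¹ * σ * g i) (r i) = r i := by
      have h1 : (g (σ i))⁻¹ (σ i) = r i := by
        rw [← hrc σ hσ i]
        have h3 := inv_app (g (σ i)) (r (σ i))
        rwa [hg (σ i)] at h3
      rw [Equiv.Perm.mul_apply, Equiv.Perm.mul_apply, hg i, h1]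
    have h2 := hst _ hκ (r i) hfix ((g i)⁻¹ j)
    rw [Equiv.Perm.mul_apply, Equiv.Perm.mul_apply, app_inv] at h2
    show ((Fintype.equivFin κ) (π ((g (σ i))⁻¹ (l (π (σ j))))) : ℕ) =
      ((Fintype.equivFin κ) (π ((g i)⁻¹ (l (π j)))) : ℕ)
    rw [key, key, h2]

end Pool.Agent.Lib.HyE
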