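import Pool.Agent.Lib.HyE.Bt

/-!
# HyE, row BF: facts on type B

PROOF IN WORDS. `bf_zero`: otherwise `B1`. `bf_mate`: an outer pair `(z, l)` of positive weight contains `c`, `z ≠ c`, so
`l = c`, but `π c = π z`; so `out v z = 0` (`out_pos` by contradiction). `bf_c`: all pairs in the class of `c`
contain `c` (`B1`, second alternative), `bf_mate`, `star_out`. `bf_out`: only the term `j = c` is nonzero
(`bf_zero`, `v z z = 0`), symmetry. `bf_sum`: `out v c = ∑ v c z` over the `z` outside the class of `c`.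
-/

set_option autoImplicit false

namespace Pool.Agent.Lib.HyE

open Finset

variable {ι κ : Type} [Fintype ι] [Fintype κ] [DecidableEq κ] (D : Dat ι κ)

theorem bf_zero {v : ι → ι → ℝ} (hv : IsW v) {c : ι} (hB : B1 D c (supp v)) {j k : ι}
    (hjk : D.π j ≠ D.π k) (hj : j ≠ c) (hk : k ≠ c) : v j k = 0 := by
  by_contra h
  have h1 : 0 < v j k := lt_of_le_of_ne (hv.nn j k) (Ne.symm h)
  rcases hB j k h1 (Or.inl hjk) with h2 | h2
  · exact hj h2
  · exact hk h2

theorem bf_mate {v : ι → ι → ℝ} (hv : IsW v) {c : ι} (hB : B1 D c (supp v)) {z : ι}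
    (hz : z ≠ c) (h : D.π z = D.π c) : out D.π v z = 0 := by
  unfold out
  refine Finset.sum_eq_zero fun j hj => ?_
  have hj' : ¬ D.π j = D.π z := (Finset.mem_filter.mp hj).2
  have hjc : j ≠ c := by
    rintro rfl
    exact hj' h.symm
  exact bf_zero D hv hB (fun e => hj' e.symm) hz hjc

theorem bf_c {v : ι → ι → ℝ} (hv : IsW v) {c : ι} (hB : B1 D c (supp v)) :
    cs D.π (out D.π v) (D.π c) = out D.π v c ∧
      out D.π v c = 2 * deg v c - cs D.π (deg v) (D.π c) := by
  refine star_out D.π hv c ?_ ?_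
  · intro j k hj _ hjc hkc
    by_contra h
    have h1 : 0 < v j k := lt_of_le_of_ne (hv.nn j k) (Ne.symm h)
    rcases hB j k h1 (Or.inr hj) with h2 | h2
    · exact hjc h2
    · exact hkc h2
  · intro j hj hjc
    exact bf_mate D hv hB hjc hj

theorem bf_out {v : ι → ι → ℝ} (hv : IsW v) {c : ι} (hB : B1 D c (supp v)) {z : ι}
    (hz : D.π z ≠ D.π c) : out D.π v z = v c z := by
  unfold out
  rw [Finset.sum_eq_single c]
  · exact hv.sym z c
  · intro j hj hjc
    have hj' : ¬ D.π j = D.π z := (Finset.mem_filter.mp hj).2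
    have hzc : z ≠ c := by
      rintro rfl
      exact hz rfl
    exact bf_zero D hv hB (fun e => hj' e.symm) hzc hjc
  · intro hc
    exact absurd (Finset.mem_filter.mpr ⟨Finset.mem_univ c, fun e => hz e.symm⟩) hc

theorem bf_sum {v : ι → ι → ℝ} (hv : IsW v) {c : ι} (hB : B1 D c (supp v)) :
    out D.π v c = ∑ z ∈ univ.filter (fun z => D.π z ≠ D.π c), out D.π v z := by
  refine Finset.sum_congr rfl fun z hz => ?_
  exact (bf_out D hv hB (Finset.mem_filter.mp hz).2).symm

theorem bf_sum' {v : ι → ι → ℝ} (hv : IsW v) {c : ι} (hB : B1 D c (supp v)) :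
    out D.π v c = ∑ p ∈ univ.filter (fun p => p ≠ D.π c), cs D.π (out D.π v) p := by
  rw [cs_sum]
  exact bf_sum D hv hB

end Pool.Agent.Lib.HyE
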