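import Pool.Agent.Lib.HyE.Defs

/-!
# HyE, row Bs: basic facts on inner and outer weights

PROOF IN WORDS. `deg_split`: `Finset.sum_filter_add_sum_filter_not`. `out_pos`/`inn_pos`: a positive sum of
nonnegative numbers has a positive term (`Finset.sum_pos_iff_of_nonneg` or by contradiction).
`cs_inn`: Let `p` be the class of `i`. `∑ j ∈ p, inn j = inn i + ∑ j ∈ p, j ≠ i, inn j`, and for
`j ≠ i` in `p` `inn j = u j i + ∑ k ∈ p, k ≠ i, u j k`; `∑ j ∈ p, j ≠ i, u j i = inn i` (`u j i = u i j`,
`u i i = 0`). `rst_zero`: a sum of nonnegative numbers.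
-/

set_option autoImplicit false

namespace Pool.Agent.Lib.HyE

open Finset

variable {ι κ : Type} [Fintype ι] [DecidableEq κ] (π : ι → κ)

theorem deg_split (u : ι → ι → ℝ) (i : ι) : deg u i = inn π u i + out π u i := by
  unfold deg inn out
  exact (Finset.sum_filter_add_sum_filter_not univ (fun j => π j = π i) (fun j => u i j)).symm

theorem inn_nonneg {u : ι → ι → ℝ} (hu : IsW u) (i : ι) : 0 ≤ inn π u i :=
  Finset.sum_nonneg fun b _ => hu.nn i b

theorem out_nonneg {u : ι → ι → ℝ} (hu : IsW u) (i : ι) : 0 ≤ out π u i :=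
  Finset.sum_nonneg fun b _ => hu.nn i b

theorem rst_nonneg {u : ι → ι → ℝ} (hu : IsW u) (i : ι) : 0 ≤ rst π u i :=
  Finset.sum_nonneg fun j _ => Finset.sum_nonneg fun k _ => hu.nn j k

theorem le_inn {u : ι → ι → ℝ} (hu : IsW u) (i j : ι) (h : π j = π i) : u i j ≤ inn π u i := by
  unfold inn
  exact Finset.single_le_sum (f := fun j => u i j) (fun b _ => hu.nn i b)
    (Finset.mem_filter.2 ⟨Finset.mem_univ j, h⟩)

theorem le_out {u : ι → ι → ℝ} (hu : IsW u) (i j : ι) (h : π j ≠ π i) : u i j ≤ out π u i := by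
  unfold out
  exact Finset.single_le_sum (f := fun j => u i j) (fun b _ => hu.nn i b)
    (Finset.mem_filter.2 ⟨Finset.mem_univ j, h⟩)

theorem out_pos {u : ι → ι → ℝ} (hu : IsW u) {i : ι} (h : 0 < out π u i) :
    ∃ j, π j ≠ π i ∧ 0 < u i j := by
  by_contra hcon
  push Not at hcon
  have h1 : out π u i ≤ 0 := Finset.sum_nonpos fun j hj => hcon j (Finset.mem_filter.1 hj).2
  have _ := hu
  linarith

theorem inn_pos {u : ι → ι → ℝ} (hu : IsW u) {i : ι} (h : 0 < inn π u i) :
    ∃ j, π j = π i ∧ 0 < u i j := by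
  by_contra hcon
  push Not at hcon
  have h1 : inn π u i ≤ 0 := Finset.sum_nonpos fun j hj => hcon j (Finset.mem_filter.1 hj).2
  have _ := hu
  linarith

theorem rst_zero {u : ι → ι → ℝ} (hu : IsW u) (i : ι) :
    rst π u i = 0 ↔ ∀ j k, π j = π i → π k = π i → j ≠ i → k ≠ i → u j k = 0 := by
  unfold rst
  rw [Finset.sum_eq_zero_iff_of_nonneg fun j _ => Finset.sum_nonneg fun k _ => hu.nn j k]
  constructor
  · intro h j k hj hk hji hki
    have h1 := h j (by simp [hj, hji])
    rw [Finset.sum_eq_zero_iff_of_nonneg fun k _ => hu.nn j k] at h1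
    exact h1 k (by simp [hk, hki])
  · intro h j hj
    refine Finset.sum_eq_zero fun k hk => ?_
    simp only [Finset.mem_filter, Finset.mem_univ, true_and] at hj hk
    exact h j k hj.1 hk.1 hj.2 hk.2

open Classical in
private theorem split_class (i : ι) (f : ι → ℝ) :
    ∑ j ∈ univ.filter (fun j => π j = π i), f j =
      f i + ∑ j ∈ univ.filter (fun j => π j = π i ∧ j ≠ i), f j := by
  have hP : univ.filter (fun j => π j = π i) =
      insert i (univ.filter (fun j => π j = π i ∧ j ≠ i)) := by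
    ext j
    simp only [Finset.mem_filter, Finset.mem_univ, true_and, Finset.mem_insert]
    constructor
    · intro h
      by_cases hj : j = i
      · exact Or.inl hj
      · exact Or.inr ⟨h, hj⟩
    · rintro (rfl | ⟨h, _⟩)
      · rfl
      · exact h
  rw [hP, Finset.sum_insert (by simp)]

theorem cs_inn {u : ι → ι → ℝ} (hu : IsW u) (i : ι) :
    cs π (inn π u) (π i) = 2 * inn π u i + rst π u i := by
  have h1 : cs π (inn π u) (π i) = ∑ j ∈ univ.filter (fun j => π j = π i),
      ∑ k ∈ univ.filter (fun k => π k = π i), u j k := by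
    unfold cs inn
    refine Finset.sum_congr rfl fun j hj => ?_
    rw [(Finset.mem_filter.1 hj).2]
  have h2 : inn π u i = ∑ k ∈ univ.filter (fun k => π k = π i), u i k := rfl
  rw [h1, split_class]
  simp only [split_class π i (fun k => u _ k)]
  rw [h2, split_class, hu.dg i, Finset.sum_add_distrib]
  have h3 : ∀ s : Finset ι, ∑ j ∈ s, u j i = ∑ j ∈ s, u i j := fun s =>
    Finset.sum_congr rfl fun j _ => hu.sym j i
  rw [h3]
  unfold rst
  ring

end Pool.Agent.Lib.HyE
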