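import Pool.Agent.Lib.HyE.Glu
import Pool.Agent.Lib.HyE.Bt

/-!
# HyE, row ExA: existence, type A

PROOF IN WORDS. Let `s p = cs D.π x p`, `Y p = max 0 (2 x (rep p) - s p)`, and let `w` be the weights on `κ` with degrees `Y`
(`D.hCb.exi`, hypothesis `hA`). Let `W i j = w (π i) (π j)` if `π i ≠ π j`, `i = rep (π i)`, `j = rep (π j)`, and `0`
otherwise (classical). `deg W i = Y (π i)` if `i = rep (π i)` (the sum over the `j = rep q`; `rep` is
injective, `w p p = 0`), and `0` otherwise. Let `y i = x i - deg W i`. For `i = rep p`: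
`y i = min (x i) (s p - x i) ≥ 0` (`le_cs`). `cs y p = s p - Y p` (only one term of `cs (deg W) p` is nonzero).
`2 y i ≤ s p - Y p`: for `i = rep p`: if `Y p = 0` then `2 x i ≤ s p`; otherwise both sides are
`2 (s p - x i)`. For `i ≠ rep p`: if `Y p = 0`: `2 x i ≤ 2 x (rep p) ≤ s p`; otherwise `x i ≤ s p - x (rep p)`
(`le_cs2`), so `2 x i ≤ 2 (s p - x (rep p)) = s p - Y p`. `glue` gives `u`. `deg u = y + deg W = x`. `A1`: let
`(i, j)` be an outer pair of positive weight, so `i = rep p`, and `Y p = deg W i ≥ W i j > 0`. Let `(k, l)` be of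
positive weight, `π k = p`. If it is outer, `k = rep p = i`. If it is inner: `Y p > 0` so
`2 y i = cs y p = cs (inn u) p`, so `rst u i = 0` (`cs_inn`), so `k = i` or `l = i` (`rst_zero`). `A2`: the outer
pairs of positive weight project to pairs of positive weight of `w`, `D.hCb.mono`.
-/

set_option autoImplicit false

namespace Pool.Agent.Lib.HyE

open Finset

variable {ι κ : Type} [Fintype ι] [Fintype κ] [DecidableEq κ] (D : Dat ι κ)

theorem ex_A (x : ι → ℝ) (hx : ∀ i, 0 ≤ x i) (rep : κ → ι) (hrep : ∀ p, D.π (rep p) = p)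
    (hmax : ∀ i, x i ≤ x (rep (D.π i)))
    (hA : ∀ p, 2 * max 0 (2 * x (rep p) - cs D.π x p) ≤
      ∑ q, max 0 (2 * x (rep q) - cs D.π x q)) :
    ∃ u : ι → ι → ℝ, IsW u ∧ Inn D (supp u) ∧ A1 D (supp u) ∧ A2 D (supp u) ∧
      ∀ i, deg u i = x i := by
  classical
  obtain ⟨w, hw, hwC, hwd⟩ := D.hCb.exi (fun p => max 0 (2 * x (rep p) - cs D.π x p))
    (fun p => le_max_left _ _) hA
  set Y : κ → ℝ := fun p => max 0 (2 * x (rep p) - cs D.π x p) with hY
  set W : ι → ι → ℝ := fun i j =>
    if D.π i ≠ D.π j ∧ i = rep (D.π i) ∧ j = rep (D.π j) then w (D.π i) (D.π j) else 0 with hWdef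
  have hW1 : ∀ i j, D.π i ≠ D.π j → i = rep (D.π i) → j = rep (D.π j) →
      W i j = w (D.π i) (D.π j) := fun i j h1 h2 h3 => if_pos ⟨h1, h2, h3⟩
  have hW2 : ∀ i j, ¬ (D.π i ≠ D.π j ∧ i = rep (D.π i) ∧ j = rep (D.π j)) → W i j = 0 :=
    fun i j h => if_neg h
  have hW : IsW W := by
    refine ⟨fun i j => ?_, fun i j => ?_, fun i => ?_⟩
    · by_cases h : D.π i ≠ D.π j ∧ i = rep (D.π i) ∧ j = rep (D.π j)
      · rw [hW1 i j h.1 h.2.1 h.2.2]
        exact hw.nn _ _
      · rw [hW2 i j h]
    · by_cases h : D.π i ≠ D.π j ∧ i = rep (D.π i) ∧ j = rep (D.π j)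
      · rw [hW1 i j h.1 h.2.1 h.2.2, hW1 j i h.1.symm h.2.2 h.2.1]
        exact hw.sym _ _
      · rw [hW2 i j h, hW2 j i fun h' => h ⟨h'.1.symm, h'.2.2, h'.2.1⟩]
    · exact hW2 i i fun h => h.1 rfl
  have hW0 : ∀ i j, D.π i = D.π j → W i j = 0 := fun i j h => hW2 i j fun h' => h'.1 h
  have hdegR : ∀ i, i = rep (D.π i) → deg W i = Y (D.π i) := by
    intro i hi
    have h1 : deg W i = ∑ p, cs D.π (fun j => W i j) p := (cs_total D.π _).symm
    have h2 : ∀ p, cs D.π (fun j => W i j) p = w (D.π i) p := by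
      intro p
      unfold cs
      rw [Finset.sum_eq_single (rep p)]
      · by_cases hp : D.π i = p
        · rw [hW0 i (rep p) (by rw [hrep, hp]), ← hp, hw.dg]
        · rw [hW1 i (rep p) (by rw [hrep]; exact hp) hi (by rw [hrep]), hrep]
      · intro j hj hne
        rw [mem_filter] at hj
        exact hW2 i j fun h => hne (by rw [h.2.2, hj.2])
      · intro h
        exact (h (mem_filter.2 ⟨mem_univ _, hrep p⟩)).elim
    rw [h1, Finset.sum_congr rfl fun p _ => h2 p]
    exact hwd (D.π i)
  have hdegN : ∀ i, i ≠ rep (D.π i) → deg W i = 0 := by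
    intro i hi
    unfold deg
    exact Finset.sum_eq_zero fun j _ => hW2 i j fun h => hi h.2.1
  have hcsW : ∀ p, cs D.π (deg W) p = Y p := by
    intro p
    unfold cs
    rw [Finset.sum_eq_single (rep p)]
    · rw [hdegR (rep p) (by rw [hrep]), hrep]
    · intro j hj hne
      rw [mem_filter] at hj
      refine hdegN j fun h => hne ?_
      rw [h, hj.2]
    · intro h
      exact (h (mem_filter.2 ⟨mem_univ _, hrep p⟩)).elim
  have hcsy : ∀ p, cs D.π (fun i => x i - deg W i) p = cs D.π x p - Y p := by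
    intro p
    rw [← hcsW p]
    unfold cs
    rw [Finset.sum_sub_distrib]
  have hYle : ∀ p, 2 * x (rep p) - cs D.π x p ≤ Y p := fun p => le_max_right _ _
  have hy : ∀ i, 0 ≤ x i - deg W i := by
    intro i
    by_cases h : i = rep (D.π i)
    · rw [hdegR i h]
      have h1 : Y (D.π i) ≤ x i := by
        refine max_le (hx i) ?_
        rw [← h]
        have := le_cs D.π hx i
        linarith
      linarith
    · rw [hdegN i h, sub_zero]
      exact hx i
  have hb : ∀ i, 2 * (x i - deg W i) ≤ cs D.π (fun i => x i - deg W i) (D.π i) := by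
    intro i
    rw [hcsy]
    by_cases h : i = rep (D.π i)
    · rw [hdegR i h]
      have h1 := hYle (D.π i)
      rw [← h] at h1
      linarith
    · rw [hdegN i h, sub_zero]
      have h1 := le_cs2 D.π hx i (rep (D.π i)) h (hrep _)
      have h2 := hmax i
      have h3 : Y (D.π i) ≤ cs D.π x (D.π i) - 2 * x i := by
        refine max_le ?_ ?_ <;> linarith
      linarith
  obtain ⟨u, hu, hI, hout, hinn, hod⟩ := glue D (fun i => x i - deg W i) hy hb W hW hW0
  have hdeg : ∀ i, deg u i = x i := by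
    intro i
    rw [deg_split D.π u i, hinn i, hod i]
    ring
  refine ⟨u, hu, hI, ?_, ?_, hdeg⟩
  · intro i j k l hij hne hkl hk
    have hij' : 0 < W i j := by
      rw [← hout i j hne]
      exact hij
    have hc : D.π i ≠ D.π j ∧ i = rep (D.π i) ∧ j = rep (D.π j) := by
      by_contra h
      rw [hW2 i j h] at hij'
      exact lt_irrefl _ hij'
    have hYpos : 0 < Y (D.π i) := by
      rw [← hdegR i hc.2.1]
      refine lt_of_lt_of_le hij' ?_
      unfold deg
      exact Finset.single_le_sum (fun j _ => hW.nn i j) (mem_univ j)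
    by_cases hkl' : D.π k = D.π l
    · have hYe : Y (D.π i) = 2 * x i - cs D.π x (D.π i) := by
        rcases max_choice (0 : ℝ) (2 * x (rep (D.π i)) - cs D.π x (D.π i)) with h | h
        · exfalso
          have h' : Y (D.π i) = 0 := h
          rw [h'] at hYpos
          exact lt_irrefl _ hYpos
        · have h' : Y (D.π i) = 2 * x (rep (D.π i)) - cs D.π x (D.π i) := h
          rw [← hc.2.1] at h'
          exact h'
      have h1 := cs_inn D.π hu i
      have h2 : inn D.π u = fun i => x i - deg W i := funext hinn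
      rw [h2, hcsy] at h1
      simp only at h1
      rw [hdegR i hc.2.1] at h1
      have h3 : rst D.π u i = 0 := by linarith
      rw [rst_zero D.π hu i] at h3
      by_contra hcon
      rw [not_or] at hcon
      have h4 := h3 k l hk (by rw [← hkl', hk]) hcon.1 hcon.2
      have h5 : 0 < u k l := hkl
      rw [h4] at h5
      exact lt_irrefl _ h5
    · left
      have h1 : 0 < W k l := by
        rw [← hout k l hkl']
        exact hkl
      have h2 : k = rep (D.π k) := by
        by_contra h
        rw [hW2 k l fun h' => h h'.2.1] at h1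
        exact lt_irrefl _ h1
      rw [h2, hk]
      exact hc.2.1.symm
  · refine D.hCb.mono _ (supp w) ?_ hwC
    rintro p q ⟨hpq, i, j, hij, rfl, rfl⟩
    have hij' : 0 < W i j := by
      rw [← hout i j hpq]
      exact hij
    have hc : D.π i ≠ D.π j ∧ i = rep (D.π i) ∧ j = rep (D.π j) := by
      by_contra h
      rw [hW2 i j h] at hij'
      exact lt_irrefl _ hij'
    rw [hW1 i j hc.1 hc.2.1 hc.2.2] at hij'
    exact hij'

end Pool.Agent.Lib.HyE
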