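import Pool.Agent.Lib.HyE.ExP
import Pool.Agent.Lib.HyE.Glu

/-!
# HyE, row ExB: existence, type B

PROOF IN WORDS. Take `O`, `o` from `ex_num`, `c = rep q`. Let `W c j = W j c = o j` for `π j ≠ q` and `0` otherwise. `IsW W`;
`deg W j = o j` for `j ≠ c` (for `π j = q` both are zero), `deg W c = ∑ o = 2 x c - s q`. Let `y i = x i - deg W i`:
for `π i ≠ q` it is `x i - o i`; `y c = s q - x c`, `y i = x i` for `i ≠ c` in `q`. Nonnegative (`le_cs`).
`2 y i ≤ cs y (π i)`: for `π i ≠ q` `cs y p = s p - O p`; for the class `q`: `cs y q = s q - (2 x c - s q) =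
2 (s q - x c)`, equality for `c`, and `x i ≤ s q - x c` for the others (`le_cs2`). `glue` gives `u`, with
`inn u = y`, `out u = deg W`, `deg u = x`. `B1`: outer pairs of positive weight contain `c` (definition
of `W`); in the class `q` `2 inn u c = cs (inn u) q`, so `rst u c = 0` (`cs_inn`) and all pairs contain `c`
(`rst_zero`). `B2`: `S c j` gives `o j > 0` (`u c j = W c j = o j`), `S i k` (inner) gives
`y i = inn u i > 0` (`le_inn`), so `o i < x i`, so `2 y j = cs y p`, so `rst u j = 0` and all pairs in the class
contain `j`. `B3`: let `p, p' ≠ q`, `ρ c p < ρ c p'`, `(k, l)` an inner pair of `p'`: `0 < y k`, so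
`0 < cs y p' = s p' - O p'` (`le_cs`), so `O p = max 0 (2 x (rep p) - s p)`. If this is `0` all `o b`, `π b = p`, are
zero (nonnegative with sum zero), so `¬ S c b`. Otherwise with `b = rep p`
`cs (out u) p = O p = 2 deg u b - cs (deg u) p`, and `low_eq` gives the second alternative of `Full`.
-/

set_option autoImplicit false

namespace Pool.Agent.Lib.HyE

open Finset

variable {ι κ : Type} [Fintype ι] [Fintype κ] [DecidableEq κ] (D : Dat ι κ)

private theorem exB_cs_sub {ι κ : Type} [Fintype ι] [DecidableEq κ] (π : ι → κ) (x y : ι → ℝ) (p : κ) :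
    cs π (fun i => x i - y i) p = cs π x p - cs π y p := by
  unfold cs
  rw [Finset.sum_sub_distrib]

private theorem exB_cs_congr {ι κ : Type} [Fintype ι] [DecidableEq κ] (π : ι → κ) (x y : ι → ℝ) (p : κ)
    (h : ∀ i, π i = p → x i = y i) : cs π x p = cs π y p := by
  unfold cs
  refine Finset.sum_congr rfl fun i hi => h i ?_
  simpa using hi

theorem ex_B (x : ι → ℝ) (hx : ∀ i, 0 ≤ x i) (hx2 : ∀ i, 2 * x i ≤ ∑ j, x j)
    (rep : κ → ι) (hrep : ∀ p, D.π (rep p) = p)
    (hmax : ∀ i, x i ≤ x (rep (D.π i))) (q : κ)
    (hB : ∑ p, max 0 (2 * x (rep p) - cs D.π x p) <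
      2 * max 0 (2 * x (rep q) - cs D.π x q)) :
    ∃ u : ι → ι → ℝ, IsW u ∧ Inn D (supp u) ∧ B1 D (rep q) (supp u) ∧ B2 D (rep q) (supp u) ∧
      B3 D (rep q) (supp u) ∧ ∀ i, deg u i = x i := by
  classical
  obtain ⟨O, o, h1, h2, h3, h4, h5, h6, h7⟩ := ex_num D x hx hx2 rep hrep hmax q hB
  have hπc : D.π (rep q) = q := hrep q
  generalize hc : rep q = c at *
  have ho : ∀ i, 0 ≤ o i := by
    intro i
    by_cases hi : D.π i = q
    · rw [h1 i hi]
    · exact (h2 i hi).1
  obtain ⟨W, hWdef⟩ : ∃ W : ι → ι → ℝ, ∀ i j, W i j = if i = c then o j else if j = c then o i else 0 :=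
    ⟨fun i j => if i = c then o j else if j = c then o i else 0, fun _ _ => rfl⟩
  have hoc : o c = 0 := h1 c hπc
  have hW : IsW W := by
    constructor
    · intro i j
      rw [hWdef]
      split_ifs
      · exact ho j
      · exact ho i
      · exact le_rfl
    · intro i j
      rw [hWdef, hWdef]
      by_cases hi : i = c <;> by_cases hj : j = c
      · simp [hi, hj]
      · simp [hi, hj]
      · simp [hi, hj]
      · simp [hi, hj]
    · intro i
      rw [hWdef]
      by_cases hi : i = c
      · simp [hi, hoc]
      · simp [hi]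
  have hW0 : ∀ i j, D.π i = D.π j → W i j = 0 := by
    intro i j hij
    rw [hWdef]
    split_ifs with hi hj
    · rw [hi, hπc] at hij
      exact h1 j hij.symm
    · rw [hj, hπc] at hij
      exact h1 i hij
    · rfl
  have hWc : deg W c = 2 * x c - cs D.π x q := by
    rw [← h5]
    unfold deg
    refine Finset.sum_congr rfl fun j _ => ?_
    rw [hWdef, if_pos rfl]
  have hWi : ∀ i, i ≠ c → deg W i = o i := by
    intro i hi
    unfold deg
    rw [Finset.sum_eq_single c]
    · rw [hWdef, if_neg hi, if_pos rfl]
    · intro j _ hj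
      rw [hWdef, if_neg hi, if_neg hj]
    · intro h
      exact absurd (mem_univ _) h
  have hne : ∀ i, D.π i ≠ q → i ≠ c := by
    intro i hi h
    rw [h] at hi
    exact hi hπc
  obtain ⟨y, hydef⟩ : ∃ y : ι → ℝ, ∀ i, y i = x i - deg W i := ⟨fun i => x i - deg W i, fun _ => rfl⟩
  have hyf : y = fun i => x i - deg W i := funext hydef
  have hxc : x c ≤ cs D.π x q := by
    have := le_cs D.π hx c
    rwa [hπc] at this
  have hy : ∀ i, 0 ≤ y i := by
    intro i
    rw [hydef]
    by_cases hi : i = c
    · rw [hi, hWc]
      linarith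
    · rw [hWi i hi]
      by_cases hiq : D.π i = q
      · rw [h1 i hiq]
        linarith [hx i]
      · linarith [(h2 i hiq).2.1]
  have hcsW : ∀ p, p ≠ q → cs D.π (deg W) p = O p := by
    intro p hp
    rw [← h3 p hp]
    refine exB_cs_congr D.π _ _ p fun i hi => hWi i (hne i ?_)
    rw [hi]
    exact hp
  have hcsWq : cs D.π (deg W) q = 2 * x c - cs D.π x q := by
    rw [← hWc]
    unfold cs
    rw [Finset.sum_eq_single c]
    · intro j hj hjc
      rw [hWi j hjc]
      refine h1 j ?_
      simpa using hj
    · intro h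
      exact absurd (by simp [hπc]) h
  have hcy : ∀ p, p ≠ q → cs D.π y p = cs D.π x p - O p := by
    intro p hp
    rw [hyf, exB_cs_sub, hcsW p hp]
  have hcyq : cs D.π y q = 2 * (cs D.π x q - x c) := by
    rw [hyf, exB_cs_sub, hcsWq]
    ring
  have hyc : y c = cs D.π x q - x c := by
    rw [hydef, hWc]
    ring
  have hb : ∀ i, 2 * y i ≤ cs D.π y (D.π i) := by
    intro i
    by_cases hiq : D.π i = q
    · rw [hiq, hcyq]
      by_cases hi : i = c
      · rw [hi, hyc]
      · rw [hydef, hWi i hi, h1 i hiq]
        have := le_cs2 D.π hx i c hi (by rw [hπc, hiq])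
        rw [hiq] at this
        linarith
    · rw [hcy _ hiq, hydef, hWi i (hne i hiq)]
      exact (h2 i hiq).2.2
  obtain ⟨u, hu, hInn, huW, hinn, hout⟩ := glue D y hy hb W hW hW0
  have hinn' : inn D.π u = y := funext hinn
  have hout' : out D.π u = deg W := funext hout
  have hdeg : ∀ i, deg u i = x i := by
    intro i
    rw [deg_split D.π u i, hinn, hout, hydef]
    ring
  have hdeg' : deg u = x := funext hdeg
  refine ⟨u, hu, hInn, ?_, ?_, ?_, hdeg⟩
  · -- B1
    intro i j hS hor
    by_cases hij : D.π i = D.π j
    · have hiq : D.π i = D.π c := by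
        rcases hor with h | h
        · exact absurd hij h
        · exact h
      have hr : rst D.π u c = 0 := by
        have := cs_inn D.π hu c
        rw [hinn', hπc, hcyq, hyc] at this
        linarith
      by_contra hcon
      push Not at hcon
      have := (rst_zero D.π hu c).1 hr i j hiq (hij ▸ hiq) hcon.1 hcon.2
      have hS' : 0 < u i j := hS
      linarith
    · have hS' : 0 < u i j := hS
      rw [huW i j hij, hWdef] at hS'
      by_contra hcon
      push Not at hcon
      rw [if_neg hcon.1, if_neg hcon.2] at hS'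
      exact lt_irrefl _ hS'
  · -- B2
    intro i j k hj hk hi hr hSc hSk a b ha hb' hSab
    have hiq : D.π i ≠ q := by
      rw [← hπc]
      exact hi
    have hcj : D.π c ≠ D.π j := by
      rw [hj]
      exact fun h => hi h.symm
    have hoj : 0 < o j := by
      have hS' : 0 < u c j := hSc
      rw [huW c j hcj, hWdef, if_pos rfl] at hS'
      exact hS'
    have hyi : 0 < y i := by
      have hS' : 0 < u i k := hSk
      have := le_inn D.π hu i k hk
      rw [hinn] at this
      linarith
    rw [hydef, hWi i (hne i hiq)] at hyi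
    have hjq : D.π j ≠ q := by
      rw [hj]
      exact hiq
    have h8 : 2 * (x j - o j) = cs D.π x (D.π i) - O (D.π i) := by
      rcases h4 i j hiq hj hr with h | h | h
      · linarith
      · linarith
      · exact h
    have hrj : rst D.π u j = 0 := by
      have := cs_inn D.π hu j
      rw [hinn', hcy _ hjq, hydef, hWi j (hne j hjq), hj] at this
      linarith
    by_contra hcon
    push Not at hcon
    have := (rst_zero D.π hu j).1 hrj a b ha hb' hcon.1 hcon.2
    have hS' : 0 < u a b := hSab
    linarith
  · -- B3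
    intro p p' hp hp' hρ hex
    obtain ⟨k, l, hk, hl, hS⟩ := hex
    rw [hπc] at hp hp'
    have hyk : 0 < y k := by
      have hS' : 0 < u k l := hS
      have := le_inn D.π hu k l (by rw [hl, hk])
      rw [hinn] at this
      linarith
    have h8 : O p' < cs D.π x p' := by
      have := le_cs D.π hy k
      rw [hk, hcy p' hp'] at this
      linarith
    have h9 := h7 p p' hp hp' hρ h8
    by_cases hpos : 2 * x (rep p) - cs D.π x p ≤ 0
    · left
      intro b hb' hS'
      rw [max_eq_left hpos, ← h3 p hp] at h9
      have h10 := le_cs D.π ho b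
      rw [hb', h9] at h10
      have hcb : D.π c ≠ D.π b := by
        rw [hπc, hb']
        exact fun h => hp h.symm
      have hS'' : 0 < u c b := hS'
      rw [huW c b hcb, hWdef, if_pos rfl] at hS''
      linarith
    · right
      push Not at hpos
      rw [max_eq_right hpos.le] at h9
      refine ⟨rep p, hrep p, ?_⟩
      have h10 : 2 * deg u (rep p) - cs D.π (deg u) (D.π (rep p)) =
          cs D.π (out D.π u) (D.π (rep p)) := by
        rw [hdeg', hout', hrep, hcsW p hp, h9]
      obtain ⟨-, h11, h12⟩ := low_eq D.π hu (rep p) h10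
      rw [hrep] at h11 h12
      constructor
      · intro i j hi hj hS'
        by_contra hcon
        push Not at hcon
        have := h12 i j hi hj hcon.1 hcon.2
        have hS'' : 0 < u i j := hS'
        linarith
      · intro i hi hS'
        by_contra hcon
        have h13 := h11 i hi hcon
        have h14 := le_out D.π hu i c (by
          rw [hπc, hi]
          exact fun h => hp h.symm)
        rw [h13] at h14
        have hS'' : 0 < u c i := hS'
        rw [hu.sym] at hS''
        linarith

end Pool.Agent.Lib.HyE
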