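import Pool.Agent.Lib.HyE.Trp

/-!
# HyE, row Fam: an equivariant family of triangulations of the classes

PROOF IN WORDS. Let `p ~ p'` if there are `σ ∈ G` and `i` with `π i = p`, `π (σ i) = p'` (an equivalence relation by `hcl`,
`hsur`; every such `σ` maps the class `p` onto the class `p'`). Choose a representative `R p` of the class
of `p` (`Quotient.out`; `R p = R p'` for `p ~ p'`) and `g p ∈ G` which maps the class `R p` onto the class
`p`. For `S` on `{i // π i = p}` let `A p S = A0 (R p) (fun a b => S ⟨g p a, _⟩ ⟨g p b, _⟩)`. `PT (A p)`: `trp` for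
the bijection `a ↦ g p a` of the classes. Equivariance: let `p = π i`, `p' = π (σ i)`, so `R p = R p'` (rewrite
or generalise this equality carefully: for instance define things through `∀ R R', R = R' → ...`
and `subst`). With `S'' a b = S (g p a) (g p b)` for all `a b : ι`, the hypothesis is `A0 (R p) (S'')` and the
goal `A0 (R p') (fun a b => S (σ.symm (g p' a)) (σ.symm (g p' b)))`, that is
`A0 (R p) (fun a b => S'' (κ.symm a) (κ.symm b))` with `κ = (g p')⁻¹ * σ * g p ∈ G`, which maps the class `R p` to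
itself; `hinv`.
-/

set_option autoImplicit false

namespace Pool.Agent.Lib.HyE

open Finset

theorem fam {ι κ : Type} [Fintype ι] [DecidableEq κ] (G : Subgroup (Equiv.Perm ι)) (π : ι → κ)
    (hsur : Function.Surjective π)
    (hcl : ∀ σ ∈ G, ∀ i j, π i = π j → π (σ i) = π (σ j))
    (A0 : ∀ p : κ, ({i // π i = p} → {i // π i = p} → Prop) → Prop) (h0 : ∀ p, PT (A0 p))
    (hinv : ∀ p, ∀ σ ∈ G, (∀ i, π i = p → π (σ i) = p) → ∀ S : ι → ι → Prop,
      A0 p (fun a b => S a b) → A0 p (fun a b => S (σ.symm a) (σ.symm b))) :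
    ∃ A : ∀ p : κ, ({i // π i = p} → {i // π i = p} → Prop) → Prop, (∀ p, PT (A p)) ∧
      ∀ σ ∈ G, ∀ i, ∀ S : ι → ι → Prop,
        A (π i) (fun a b => S a b) → A (π (σ i)) (fun a b => S (σ.symm a) (σ.symm b)) := by
  let r : κ → κ → Prop := fun p p' => ∃ σ ∈ G, ∃ i, π i = p ∧ π (σ i) = p'
  have hr : Equivalence r := by
    refine ⟨fun p => ?_, ?_, ?_⟩
    · obtain ⟨i, hi⟩ := hsur p
      exact ⟨1, G.one_mem, i, hi, hi⟩
    · rintro p p' ⟨σ, hσ, i, h1, h2⟩
      refine ⟨σ⁻¹, G.inv_mem hσ, σ i, h2, ?_⟩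
      show π (σ.symm (σ i)) = p
      rw [Equiv.symm_apply_apply]
      exact h1
    · rintro p p' p'' ⟨σ, hσ, i, h1, h2⟩ ⟨τ, hτ, j, h3, h4⟩
      refine ⟨τ * σ, G.mul_mem hτ hσ, i, h1, ?_⟩
      rw [Equiv.Perm.mul_apply, hcl τ hτ (σ i) j (h2.trans h3.symm)]
      exact h4
  let s : Setoid κ := ⟨r, hr⟩
  obtain ⟨R, hR1, hR2⟩ : ∃ R : κ → κ, (∀ p, r (R p) p) ∧ ∀ p p', r p p' → R p = R p' :=
    ⟨fun p => (Quotient.mk s p).out, fun p => Quotient.mk_out (s := s) p,
      fun p p' h => congrArg Quotient.out (Quotient.sound (s := s) h)⟩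
  choose g hg ix hix1 hix2 using hR1
  have hm : ∀ p a, π a = R p → π (g p a) = p := fun p a ha => by
    rw [hcl (g p) (hg p) a (ix p) (ha.trans (hix1 p).symm)]
    exact hix2 p
  have hm' : ∀ p a, π a = p → π ((g p).symm a) = R p := fun p a ha => by
    have h : π ((g p).symm a) = π ((g p).symm (g p (ix p))) :=
      hcl (g p)⁻¹ (G.inv_mem (hg p)) a (g p (ix p)) (ha.trans (hix2 p).symm)
    rw [Equiv.symm_apply_apply, hix1] at h
    exact h
  let e : ∀ p, {i // π i = R p} ≃ {i // π i = p} := fun p =>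
    { toFun := fun a => ⟨g p a, hm p a a.2⟩
      invFun := fun a => ⟨(g p).symm a, hm' p a a.2⟩
      left_inv := fun a => Subtype.ext ((g p).symm_apply_apply _)
      right_inv := fun a => Subtype.ext ((g p).apply_symm_apply _) }
  refine ⟨fun p S => A0 (R p) (fun i j => S (e p i) (e p j)),
    fun p => trp (e p) (A0 (R p)) (h0 (R p)), ?_⟩
  intro σ hσ i S hS
  have hRR : R (π i) = R (π (σ i)) := hR2 _ _ ⟨σ, hσ, i, rfl, rfl⟩
  have tr : ∀ q q' : κ, q = q' → ∀ T : ι → ι → Prop, A0 q (fun a b => T a b) →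
      A0 q' (fun a b => T a b) := by
    rintro q _ rfl T h
    exact h
  have hS' : A0 (R (π i)) (fun a b => (fun a b : ι => S (g (π i) a) (g (π i) b)) a b) := hS
  have hk : (g (π (σ i)))⁻¹ * σ * g (π i) ∈ G :=
    G.mul_mem (G.mul_mem (G.inv_mem (hg _)) hσ) (hg _)
  have hkc : ∀ a, π a = R (π i) → π (((g (π (σ i)))⁻¹ * σ * g (π i)) a) = R (π i) := by
    intro a ha
    have h1 : π (g (π i) a) = π i := hm _ a ha
    have h2 : π (σ (g (π i) a)) = π (σ i) := hcl σ hσ _ _ h1
    have h3 := hm' (π (σ i)) _ h2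
    rw [hRR]
    exact h3
  have h4 := hinv (R (π i)) _ hk hkc (fun a b : ι => S (g (π i) a) (g (π i) b)) hS'
  have h5 : ∀ a : ι, g (π i) (((g (π (σ i)))⁻¹ * σ * g (π i)).symm a) =
      σ.symm (g (π (σ i)) a) := by
    intro a
    apply σ.injective
    rw [Equiv.apply_symm_apply]
    have h := ((g (π (σ i)))⁻¹ * σ * g (π i)).apply_symm_apply a
    rw [Equiv.Perm.mul_apply, Equiv.Perm.mul_apply, Equiv.Perm.inv_eq_iff_eq] at h
    exact h
  have h6 : A0 (R (π i)) (fun a b => (fun a b : ι => S (σ.symm (g (π (σ i)) a))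
      (σ.symm (g (π (σ i)) b))) a b) := by
    have h7 : (fun a b : {j // π j = R (π i)} =>
        (fun a b : ι => S (g (π i) a) (g (π i) b)) (((g (π (σ i)))⁻¹ * σ * g (π i)).symm a)
          (((g (π (σ i)))⁻¹ * σ * g (π i)).symm b)) =
        (fun a b : {j // π j = R (π i)} => (fun a b : ι => S (σ.symm (g (π (σ i)) a))
          (σ.symm (g (π (σ i)) b))) a b) := by
      funext a b
      show S (g (π i) _) (g (π i) _) = _
      rw [h5, h5]
    rw [← h7]
    exact h4
  exact tr _ _ hRR (fun a b : ι => S (σ.symm (g (π (σ i)) a)) (σ.symm (g (π (σ i)) b))) h6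

end Pool.Agent.Lib.HyE
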