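import Pool.Agent.Lib.HyE.UA
import Pool.Agent.Lib.HyE.BF
import Pool.Agent.Lib.HyE.Cls

/-!
# HyE, row UAB: uniqueness, u of type A and v of type B

PROOF IN WORDS. Let `q = π c`, `O u p = cs (out u) p`. `∑ p ≠ q, O u p ≤ ∑ p ≠ q, O v p` (`a1_le`) `= out v c` (`bf_sum'`)
`= 2 deg v c - cs (deg v) q` (`bf_c`) `= 2 deg u c - cs (deg u) q ≤ O u q` (`low`) `≤ ∑ p ≠ q, O u p`
(`cs_out_le`, `cs_sum`). So all are equal. (1) `O u p = O v p` for all `p ≠ q` (termwise,
`Finset.sum_eq_sum_iff_of_le`). (2) `O u q = 2 deg u c - cs (deg u) q`, so by `low_eq` `out u c = O u q`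
`= out v c` and `out u i = 0` for `i ≠ c` in `q`, as `out v i` (`bf_mate`). (3) `cs_out_eq`: outer pairs of
`u` between two classes different from `q` have weight zero; with (2) and `le_out`: all outer pairs
of `u` which do not contain `c` have weight zero; the same for `v` (`bf_zero`). So for `z` outside `q`
`out u z = u z c = u c z` and `out v z = v c z`, and by `uniq_of_out` it remains: `out u z = out v z` for
`z` in `p ≠ q`. If `O u p = 0 = O v p` all are zero (nonnegative terms). Otherwise there is `i` in `p` with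
`out u i > 0`; by `a1_star`, `star_out` `O u p = out u i = 2 deg i - cs deg p`, and `out u j = 0` for the other `j`;
so `O v p = 2 deg v i - cs (deg v) p` and by `low_eq` for `v`: `out v i = O v p`, `out v j = 0`.
-/

set_option autoImplicit false

namespace Pool.Agent.Lib.HyE

open Finset

variable {ι κ : Type} [Fintype ι] [Fintype κ] [DecidableEq κ] (D : Dat ι κ)

theorem uniq_AB {u v : ι → ι → ℝ} (hu : IsW u) (hv : IsW v)
    (hiu : Inn D (supp u)) (hiv : Inn D (supp v)) (h1 : A1 D (supp u)) {c : ι}
    (hB : B1 D c (supp v)) (hd : ∀ i, deg u i = deg v i) (i j : ι) : u i j = v i j := by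
  classical
  have hde : (deg u) = deg v := funext hd
  -- chain
  have e1 : ∑ p ∈ univ.filter (fun p => p ≠ D.π c), cs D.π (out D.π u) p ≤
      ∑ p ∈ univ.filter (fun p => p ≠ D.π c), cs D.π (out D.π v) p :=
    Finset.sum_le_sum fun p _ => a1_le D hu hv h1 hd p
  have e2 := bf_sum' D hv hB
  have e3 := bf_c D hv hB
  have e4 := low D.π hu c
  have e5 := cs_out_le D.π hu (D.π c)
  have e6 := cs_sum D.π (out D.π u) (D.π c)
  rw [hde] at e4
  have E1 : ∑ p ∈ univ.filter (fun p => p ≠ D.π c), cs D.π (out D.π u) p =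
      ∑ p ∈ univ.filter (fun p => p ≠ D.π c), cs D.π (out D.π v) p := by linarith
  have hO : ∀ p, p ≠ D.π c → cs D.π (out D.π u) p = cs D.π (out D.π v) p := by
    intro p hp
    exact (Finset.sum_eq_sum_iff_of_le (fun p _ => a1_le D hu hv h1 hd p)).1 E1 p
      (by simp [hp])
  have E2 : 2 * deg u c - cs D.π (deg u) (D.π c) = cs D.π (out D.π u) (D.π c) := by
    rw [hde]; linarith [hd c]
  obtain ⟨f1, f2, f3⟩ := low_eq D.π hu c E2
  have E3 := cs_out_eq D.π hu (D.π c) (by linarith)
  have hzero : ∀ i j, D.π i ≠ D.π j → i ≠ c → j ≠ c → u i j = 0 := by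
    intro i j hij hi hj
    by_cases hi' : D.π i = D.π c
    · have h := le_out D.π hu i j (fun h => hij h.symm)
      rw [f2 i hi' hi] at h
      exact le_antisymm h (hu.nn i j)
    · by_cases hj' : D.π j = D.π c
      · have h := le_out D.π hu j i hij
        rw [f2 j hj' hj] at h
        rw [hu.sym]
        exact le_antisymm h (hu.nn j i)
      · exact E3 i j hi' hj' hij
  have hou : ∀ z, D.π z ≠ D.π c → out D.π u z = u c z := by
    intro z hz
    unfold out
    rw [Finset.sum_eq_single c]
    · exact hu.sym z c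
    · intro b hb hbc
      rw [Finset.mem_filter] at hb
      exact hzero z b (fun h => hb.2 h.symm) (fun h => hz (by rw [h])) hbc
    · intro h
      exact absurd (Finset.mem_filter.2 ⟨Finset.mem_univ _, fun h' => hz h'.symm⟩) h
  have houteq : ∀ z, D.π z ≠ D.π c → out D.π u z = out D.π v z := by
    intro z hz
    by_cases hex : ∃ i, D.π i = D.π z ∧ 0 < out D.π u i
    · obtain ⟨i, hi, hpos⟩ := hex
      obtain ⟨g1, g2⟩ := a1_star D hu h1 i hpos
      obtain ⟨k1, k2⟩ := star_out D.π hu i g1 g2
      have hic : D.π i ≠ D.π c := by rw [hi]; exact hz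
      have K : 2 * deg v i - cs D.π (deg v) (D.π i) = cs D.π (out D.π v) (D.π i) := by
        rw [← hO _ hic, k1, k2, ← hde]
      obtain ⟨m1, m2, m3⟩ := low_eq D.π hv i K
      by_cases hzi : z = i
      · subst hzi
        rw [m1, ← hO _ hic, k1]
      · rw [g2 z hi.symm hzi, m2 z hi.symm hzi]
    · push Not at hex
      have hz0 : cs D.π (out D.π u) (D.π z) = 0 := by
        unfold cs
        apply Finset.sum_eq_zero
        intro i hi
        rw [Finset.mem_filter] at hi
        exact le_antisymm (hex i hi.2) (out_nonneg D.π hu i)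
      have hz1 : cs D.π (out D.π v) (D.π z) = 0 := by rw [← hO _ hz]; exact hz0
      have a := le_cs D.π (fun i => out_nonneg D.π hv i) z
      have b := out_nonneg D.π hv z
      have a' := hex z rfl
      have b' := out_nonneg D.π hu z
      linarith
  refine uniq_of_out D hu hv hiu hiv hd ?_ i j
  intro i j hij
  by_cases hi : i = c
  · subst hi
    rw [← hou j (fun h => hij h.symm), ← bf_out D hv hB (fun h => hij h.symm)]
    exact houteq j (fun h => hij h.symm)
  · by_cases hj : j = c
    · subst hj
      rw [hu.sym i, hv.sym i, ← hou i hij, ← bf_out D hv hB hij]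
      exact houteq i hij
    · rw [hzero i j hij hi hj, bf_zero D hv hB hij hi hj]

end Pool.Agent.Lib.HyE
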