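import Pool.Agent.Lib.HyE.BF

/-!
# HyE, row UC2: both of type B with the same centre: inside a class

PROOF IN WORDS. Let `p` be the class of `i`. `cs inn u p = cs deg p - cs out p = cs inn v p =: 2h` (`deg_split`). One-sided
private lemma: there is no `i` outside the class of `c` with `out u i < out v i` such that
`out u j = out v j` for all `j` in its class with `r c j < r c i`. Proof: `out v i ≤ deg i`, so `inn u i > 0`,
and there is `k` in the class with `u i k > 0` (`inn_pos`). As the sums over the class agree there is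
`j` in the class with `out u j > out v j` (else `Finset.sum_lt_sum`), and `j ≠ i`, so `r c i < r c j`
(not smaller by assumption, not equal by injectivity). `u c j = out u j > 0` (`bf_out`), so by `B2` all
pairs of `u` in the class contain `j`, so `rst u j = 0` and `2 inn u j = cs inn p = 2h` (`cs_inn`), while
`2 inn v j ≤ 2h` (`cs_inn`, `rst_nonneg`). So `out u j = deg j - h ≤ out v j`. Contradiction. Now if
`out u i ≠ out v i` for some `i`, take it with `r c i` smallest in its class.
-/

set_option autoImplicit false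

namespace Pool.Agent.Lib.HyE

open Finset

variable {ι κ : Type} [Fintype ι] [Fintype κ] [DecidableEq κ] (D : Dat ι κ)

private theorem uc2_one {u v : ι → ι → ℝ} (hu : IsW u) (hv : IsW v) {c : ι}
    (hB : B1 D c (supp u)) (h2 : B2 D c (supp u)) (hd : ∀ i, deg u i = deg v i) {i : ι}
    (hcs : cs D.π (out D.π u) (D.π i) = cs D.π (out D.π v) (D.π i)) (hi : D.π i ≠ D.π c)
    (hmin : ∀ j, D.π j = D.π i → D.r c j < D.r c i → out D.π u j = out D.π v j) :
    ¬ out D.π u i < out D.π v i := by
  intro hlt
  have hsu := deg_split D.π u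
  have hsv := deg_split D.π v
  have h1 : 0 < inn D.π u i := by
    have := inn_nonneg D.π hv i
    have := hsu i
    have := hsv i
    have := hd i
    linarith
  obtain ⟨k, hk, hik⟩ := inn_pos D.π hu h1
  obtain ⟨j, hj, hjlt⟩ : ∃ j, D.π j = D.π i ∧ out D.π v j < out D.π u j := by
    by_contra hcon
    push Not at hcon
    have h3 : cs D.π (out D.π u) (D.π i) < cs D.π (out D.π v) (D.π i) := by
      unfold cs
      refine sum_lt_sum (fun j hj => hcon j (mem_filter.mp hj).2) ⟨i, mem_filter.mpr ⟨mem_univ _, rfl⟩, hlt⟩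
    linarith
  have hji : j ≠ i := by
    rintro rfl
    linarith
  have hr : D.r c i < D.r c j := by
    rcases lt_trichotomy (D.r c i) (D.r c j) with h | h | h
    · exact h
    · exact absurd (D.hr c h).symm hji
    · have := hmin j hj h
      linarith
  have hjc : D.π j ≠ D.π c := by rw [hj]; exact hi
  have hcj : supp u c j := by
    have h4 := bf_out D hu hB hjc
    have h5 := out_nonneg D.π hv j
    show 0 < u c j
    rw [← h4]
    linarith
  have hall := h2 i j k hj hk hi hr hcj hik
  have hrst : rst D.π u j = 0 := by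
    rw [rst_zero D.π hu j]
    intro a b ha hb haj hbj
    by_contra h0
    have h6 : 0 < u a b := lt_of_le_of_ne (hu.nn a b) (Ne.symm h0)
    rcases hall a b ha hb h6 with h | h
    · exact haj h
    · exact hbj h
  have e1 := cs_inn D.π hu j
  have e2 := cs_inn D.π hv j
  have e3 := rst_nonneg D.π hv j
  have e4 : cs D.π (inn D.π u) (D.π j) = cs D.π (inn D.π v) (D.π j) := by
    have h7 : ∀ w : ι → ι → ℝ, cs D.π (inn D.π w) (D.π j) = cs D.π (deg w) (D.π j) - cs D.π (out D.π w) (D.π j) := by
      intro w
      unfold cs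
      rw [← sum_sub_distrib]
      refine sum_congr rfl fun l _ => ?_
      rw [deg_split D.π w l]
      ring
    rw [h7, h7, hj, hcs]
    congr 1
    unfold cs
    exact sum_congr rfl fun l _ => hd l
  have e5 := hsu j
  have e6 := hsv j
  have e7 := hd j
  linarith

theorem uniq_in {u v : ι → ι → ℝ} (hu : IsW u) (hv : IsW v) {c : ι}
    (hB : B1 D c (supp u)) (hB' : B1 D c (supp v)) (h2 : B2 D c (supp u)) (h2' : B2 D c (supp v))
    (hd : ∀ i, deg u i = deg v i)
    (hcs : ∀ p, p ≠ D.π c → cs D.π (out D.π u) p = cs D.π (out D.π v) p) (i : ι)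
    (hi : D.π i ≠ D.π c) : out D.π u i = out D.π v i := by
  classical
  by_contra hne
  obtain ⟨j, hj, hmin⟩ := exists_min_image (univ.filter fun j => D.π j = D.π i ∧ out D.π u j ≠ out D.π v j)
    (fun j => D.r c j) ⟨i, mem_filter.mpr ⟨mem_univ _, rfl, hne⟩⟩
  rw [mem_filter] at hj
  obtain ⟨-, hji, hjne⟩ := hj
  have hjc : D.π j ≠ D.π c := by rw [hji]; exact hi
  have hm : ∀ l, D.π l = D.π j → D.r c l < D.r c j → out D.π u l = out D.π v l := by
    intro l hl hlt
    by_contra h
    have h1 := hmin l (mem_filter.mpr ⟨mem_univ _, hl.trans hji, h⟩)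
    omega
  rcases lt_or_gt_of_ne hjne with h | h
  · exact uc2_one D hu hv hB h2 hd (hcs _ hjc) hjc hm h
  · exact uc2_one D hv hu hB' h2' (fun i => (hd i).symm) (hcs _ hjc).symm hjc (fun l hl hlt => (hm l hl hlt).symm) h

end Pool.Agent.Lib.HyE
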