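import Pool.Agent.Lib.HyE.UC1
import Pool.Agent.Lib.HyE.UC2
import Pool.Agent.Lib.HyE.Cls

/-!
# HyE, row UC: uniqueness, both of type B with the same centre

PROOF IN WORDS. `uniq_of_out`: outer pairs without `c` have weight zero (`bf_zero`); `u c z = out u z = out v z = v c z` for
`z` outside the class of `c` (`bf_out`, `uniq_in` with `uniq_cls`); symmetry for `(z, c)`.
-/

set_option autoImplicit false

namespace Pool.Agent.Lib.HyE

open Finset

variable {ι κ : Type} [Fintype ι] [Fintype κ] [DecidableEq κ] (D : Dat ι κ)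

theorem uniq_BB {u v : ι → ι → ℝ} (hu : IsW u) (hv : IsW v)
    (hiu : Inn D (supp u)) (hiv : Inn D (supp v)) {c : ι}
    (hB : B1 D c (supp u)) (hB' : B1 D c (supp v)) (h2 : B2 D c (supp u)) (h2' : B2 D c (supp v))
    (h3 : B3 D c (supp u)) (h3' : B3 D c (supp v))
    (hd : ∀ i, deg u i = deg v i) (i j : ι) : u i j = v i j := by
  have key : ∀ z, D.π z ≠ D.π c → u c z = v c z := by
    intro z hz
    have h := uniq_in D hu hv hB hB' h2 h2' hd
      (fun p hp => uniq_cls D hu hv hB hB' h3 h3' hd p hp) z hz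
    rw [bf_out D hu hB hz, bf_out D hv hB' hz] at h
    exact h
  refine uniq_of_out D hu hv hiu hiv hd ?_ i j
  intro a b hab
  by_cases ha : a = c
  · subst ha
    exact key b (Ne.symm hab)
  · by_cases hb : b = c
    · subst hb
      rw [hu.sym a b, hv.sym a b]
      exact key a hab
    · rw [bf_zero D hu hB hab ha hb, bf_zero D hv hB' hab ha hb]

end Pool.Agent.Lib.HyE
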