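import Pool.Agent.Lib.HyE.BF
import Pool.Agent.Lib.HyE.Cls

/-!
# HyE, row UD: uniqueness, both of type B with different centres

PROOF IN WORDS. First case `π c = π d`. `out v c = 0` (`bf_mate`), and `key` for `v` at `c` gives `cs deg = 2 deg c + rst +
cs out ≥ 2 deg c`, so `out u c = 2 deg c - cs deg ≤ 0` (`bf_c`), so `out u c = 0`, and by `bf_sum` and
nonnegativity all `out u z = 0` (`bf_mate` for the others in the class). The same for `v`.
`uniq_of_outer_zero`. Second case `π c ≠ π d`. Let `O u p = cs (out u) p`. `out v d = 2 deg d - cs deg (π d)`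
(`bf_c`) `≤ O u (π d)` (`low`) `≤ out u c` (one term of `bf_sum'`) `= 2 deg c - cs deg (π c) ≤ O v (π c) ≤
out v d`. So all are equal. `O u (π d) = 2 deg u d - cs (deg u) (π d)`, so by `low_eq` `out u d = O u (π d) =
out u c` and the other `out u z`, `z` in the class of `d`, are zero. As `O u (π d)` is the whole sum in
`bf_sum'`, `O u p = 0` for the other classes `p`, so `out u z = 0` there; and `out u z = 0` for `z ≠ c` in the
class of `c` (`bf_mate`). So `out u z = 0` for all `z ≠ c, d`, `u c d = out u d` (`bf_out`), and the same for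
`v` (with `v d c = out v c`, `out v c = O v (π c)`). All the numbers are equal, so `u c d = v c d`; an outer pair
which is not `(c, d)` or `(d, c)` contains an index `z ≠ c, d`, so both weights are zero (`le_out`).
`uniq_of_out`.
-/

set_option autoImplicit false

namespace Pool.Agent.Lib.HyE

open Finset

variable {ι κ : Type} [Fintype ι] [Fintype κ] [DecidableEq κ] (D : Dat ι κ)

private theorem all_zero {u v : ι → ι → ℝ} (hu : IsW u) (hv : IsW v) {c d : ι} (hcd : c ≠ d)
    (hB : B1 D c (supp u)) (hB' : B1 D d (supp v)) (hd : deg u = deg v) (h : D.π c = D.π d) (z : ι) :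
    out D.π u z = 0 := by
  have h1 := (bf_c D hu hB).2
  have h2 := key D.π hv c
  have h3 := bf_mate D hv hB' hcd h
  have h4 := rst_nonneg D.π hv c
  have h5 := cs_nonneg D.π (out_nonneg D.π hv) (D.π c)
  have h6 := out_nonneg D.π hu c
  rw [hd] at h1
  have h7 : out D.π u c = 0 := by
    apply le_antisymm _ h6
    linarith
  by_cases hz : D.π z = D.π c
  · by_cases hzc : z = c
    · rw [hzc, h7]
    · exact bf_mate D hu hB hzc hz
  · have h8 := bf_sum D hu hB
    rw [h7] at h8
    have h9 := (Finset.sum_eq_zero_iff_of_nonneg (fun z _ => out_nonneg D.π hu z)).1 h8.symm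
    exact h9 z (by rw [mem_filter]; exact ⟨mem_univ _, hz⟩)

private theorem part {u : ι → ι → ℝ} (hu : IsW u) {c d : ι} (hcd : D.π c ≠ D.π d)
    (hB : B1 D c (supp u)) (h1 : 2 * deg u d - cs D.π (deg u) (D.π d) = cs D.π (out D.π u) (D.π d))
    (h2 : cs D.π (out D.π u) (D.π d) = out D.π u c) :
    (∀ z, z ≠ c → z ≠ d → out D.π u z = 0) ∧ u c d = out D.π u c := by
  obtain ⟨e1, e2, -⟩ := low_eq D.π hu d h1
  refine ⟨fun z hz hzd => ?_, ?_⟩
  · by_cases hc : D.π z = D.π c
    · exact bf_mate D hu hB hz hc
    · by_cases hd : D.π z = D.π d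
      · exact e2 z hd hzd
      · have h3 := bf_sum' D hu hB
        have hm : D.π d ∈ univ.filter (fun p => p ≠ D.π c) := by
          rw [mem_filter]
          exact ⟨mem_univ _, hcd.symm⟩
        rw [← Finset.add_sum_erase _ _ hm, h2] at h3
        have h4 : ∑ p ∈ (univ.filter (fun p => p ≠ D.π c)).erase (D.π d), cs D.π (out D.π u) p = 0 := by
          linarith
        have h5 := (Finset.sum_eq_zero_iff_of_nonneg (fun p _ => cs_nonneg D.π (out_nonneg D.π hu) p)).1 h4
          (D.π z) (by
            rw [mem_erase, mem_filter]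
            exact ⟨hd, mem_univ _, hc⟩)
        have h6 := le_cs D.π (out_nonneg D.π hu) z
        exact le_antisymm (h5 ▸ h6) (out_nonneg D.π hu z)
  · rw [← bf_out D hu hB hcd.symm, e1, h2]

private theorem zero_of {w : ι → ι → ℝ} (hw : IsW w) {c d : ι}
    (h : ∀ z, z ≠ c → z ≠ d → out D.π w z = 0) {i j : ι} (hij : D.π i ≠ D.π j) (hc : i ≠ c)
    (hd : i ≠ d) : w i j = 0 := by
  have h1 := le_out D.π hw i j hij.symm
  rw [h i hc hd] at h1
  exact le_antisymm h1 (hw.nn i j)

private theorem le_center {u : ι → ι → ℝ} (hu : IsW u) {c d : ι} (hcd : D.π c ≠ D.π d)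
    (hB : B1 D c (supp u)) : cs D.π (out D.π u) (D.π d) ≤ out D.π u c := by
  rw [bf_sum' D hu hB]
  refine Finset.single_le_sum (f := fun p => cs D.π (out D.π u) p)
    (fun p _ => cs_nonneg D.π (out_nonneg D.π hu) p) ?_
  rw [mem_filter]
  exact ⟨mem_univ _, hcd.symm⟩

theorem uniq_BD {u v : ι → ι → ℝ} (hu : IsW u) (hv : IsW v)
    (hiu : Inn D (supp u)) (hiv : Inn D (supp v)) {c d : ι} (hcd : c ≠ d)
    (hB : B1 D c (supp u)) (hB' : B1 D d (supp v))
    (hd : ∀ i, deg u i = deg v i) (i j : ι) : u i j = v i j := by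
  have hdf : deg u = deg v := funext hd
  by_cases h : D.π c = D.π d
  · exact uniq_of_outer_zero D hu hv hiu hiv hd (all_zero D hu hv hcd hB hB' hdf h)
      (all_zero D hv hu hcd.symm hB' hB hdf.symm h.symm) i j
  · have a1 := (bf_c D hv hB').2
    have a2 := low D.π hu d
    have a3 := le_center D hu h hB
    have b1 := (bf_c D hu hB).2
    have b2 := low D.π hv c
    have b3 := le_center D hv (Ne.symm h) hB'
    rw [← hdf] at a1 b2
    have e1 : 2 * deg u d - cs D.π (deg u) (D.π d) = cs D.π (out D.π u) (D.π d) := by linarith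
    have e2 : cs D.π (out D.π u) (D.π d) = out D.π u c := by linarith
    have e3 : 2 * deg v c - cs D.π (deg v) (D.π c) = cs D.π (out D.π v) (D.π c) := by
      rw [← hdf]
      linarith
    have e4 : cs D.π (out D.π v) (D.π c) = out D.π v d := by linarith
    obtain ⟨p1, p2⟩ := part D hu h hB e1 e2
    obtain ⟨q1, q2⟩ := part D hv (Ne.symm h) hB' e3 e4
    have hcd2 : u c d = v c d := by
      rw [p2, hv.sym c d, q2]
      linarith
    have q1' : ∀ z, z ≠ c → z ≠ d → out D.π v z = 0 := fun z h1 h2 => q1 z h2 h1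
    refine uniq_of_out D hu hv hiu hiv hd (fun i j hij => ?_) i j
    have hfar : ∀ i j : ι, D.π i ≠ D.π j → i ≠ c → i ≠ d → u i j = v i j := by
      intro i j hij hc hd
      rw [zero_of D hu p1 hij hc hd, zero_of D hv q1' hij hc hd]
    by_cases hi : i ≠ c ∧ i ≠ d
    · exact hfar i j hij hi.1 hi.2
    · by_cases hj : j ≠ c ∧ j ≠ d
      · rw [hu.sym i j, hv.sym i j]
        exact hfar j i hij.symm hj.1 hj.2
      · have hi' : i = c ∨ i = d := by
          by_contra hh
          rw [not_or] at hh
          exact hi hh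
        have hj' : j = c ∨ j = d := by
          by_contra hh
          rw [not_or] at hh
          exact hj hh
        rcases hi' with rfl | rfl <;> rcases hj' with rfl | rfl
        · exact absurd rfl hij
        · exact hcd2
        · rw [hu.sym, hv.sym]
          exact hcd2
        · exact absurd rfl hij

end Pool.Agent.Lib.HyE
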