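import Pool.Agent.Lib.HyE.UAA
import Pool.Agent.Lib.HyE.UAB
import Pool.Agent.Lib.HyE.UC
import Pool.Agent.Lib.HyE.UD
import Pool.Agent.Lib.HyE.ExA
import Pool.Agent.Lib.HyE.ExB
import Pool.Agent.Lib.HyE.Inv
import Pool.Agent.Lib.HyE.Fam
import Pool.Agent.Lib.HyE.Rnk

/-!
# HyE: the composition theorem for semiregular groups and classes of any size
-/

set_option autoImplicit false

namespace Pool.Agent.Lib.HyE

open Finset

section

variable {ι κ : Type} [Fintype ι] [Fintype κ] [DecidableEq κ] (D : Dat ι κ)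

theorem can_mono (S S' : ι → ι → Prop) (hS : ∀ i j, S i j → S' i j) (h : Can D S') :
    Can D S := by
  obtain ⟨hI, h⟩ := h
  refine ⟨fun p => (D.hA p).mono _ _ (fun i j hij => hS _ _ hij) (hI p), ?_⟩
  rcases h with ⟨h1, h2⟩ | ⟨c, h1, h2, h3⟩
  · left
    refine ⟨fun i j k l hij hne hkl hk => h1 i j k l (hS _ _ hij) hne (hS _ _ hkl) hk, ?_⟩
    refine D.hCb.mono _ _ ?_ h2
    rintro p q ⟨hpq, i, j, hij, hi, hj⟩
    exact ⟨hpq, i, j, hS _ _ hij, hi, hj⟩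
  · right
    refine ⟨c, fun i j hij => h1 i j (hS _ _ hij), ?_, ?_⟩
    · intro i j k hj hk hi hlt hcj hik a b ha hb hab
      exact h2 i j k hj hk hi hlt (hS _ _ hcj) (hS _ _ hik) a b ha hb (hS _ _ hab)
    · rintro p p' hp hp' hlt ⟨k, l, hk, hl, hkl⟩
      rcases h3 p p' hp hp' hlt ⟨k, l, hk, hl, hS _ _ hkl⟩ with hF | ⟨b, hb, hb1, hb2⟩
      · exact Or.inl fun b hb hcb => hF b hb (hS _ _ hcb)
      · exact Or.inr ⟨b, hb, fun i j hi hj hij => hb1 i j hi hj (hS _ _ hij),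
          fun i hi hci => hb2 i hi (hS _ _ hci)⟩

theorem can_uniq (u v : ι → ι → ℝ) (hu : IsW u) (hv : IsW v) (hcu : Can D (supp u))
    (hcv : Can D (supp v)) (hd : ∀ i, deg u i = deg v i) (i j : ι) : u i j = v i j := by
  obtain ⟨hiu, hcu⟩ := hcu
  obtain ⟨hiv, hcv⟩ := hcv
  rcases hcu with ⟨h1, h2⟩ | ⟨c, h1, h2, h3⟩
  · rcases hcv with ⟨h1', h2'⟩ | ⟨d, h1', h2', h3'⟩
    · exact uniq_AA D hu hv hiu hiv h1 h2 h1' h2' hd i j
    · exact uniq_AB D hu hv hiu hiv h1 h1' hd i j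
  · rcases hcv with ⟨h1', h2'⟩ | ⟨d, h1', h2', h3'⟩
    · exact (uniq_AB D hv hu hiv hiu h1' h1 (fun i => (hd i).symm) i j).symm
    · by_cases hcd : c = d
      · subst hcd
        exact uniq_BB D hu hv hiu hiv h1 h1' h2 h2' h3 h3' hd i j
      · exact uniq_BD D hu hv hiu hiv hcd h1 h1' hd i j

theorem can_exi (x : ι → ℝ) (hx : ∀ i, 0 ≤ x i) (hx2 : ∀ i, 2 * x i ≤ ∑ j, x j) :
    ∃ u : ι → ι → ℝ, IsW u ∧ Can D (supp u) ∧ ∀ i, deg u i = x i := by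
  have hr : ∀ p : κ, ∃ r : ι, D.π r = p ∧ ∀ i, D.π i = p → x i ≤ x r := by
    intro p
    obtain ⟨a, ha⟩ := D.sur p
    obtain ⟨r, hr, hmax⟩ := Finset.exists_max_image (univ.filter (fun i => D.π i = p)) x
      ⟨a, by simp [ha]⟩
    refine ⟨r, by simpa using hr, ?_⟩
    intro i hi
    exact hmax i (by simp [hi])
  choose rep hrep hm using hr
  have hmax : ∀ i, x i ≤ x (rep (D.π i)) := fun i => hm (D.π i) i rfl
  by_cases hB : ∃ q, ∑ p, max 0 (2 * x (rep p) - cs D.π x p) <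
      2 * max 0 (2 * x (rep q) - cs D.π x q)
  · obtain ⟨q, hq⟩ := hB
    obtain ⟨u, hu, hI, h1, h2, h3, hd⟩ := ex_B D x hx hx2 rep hrep hmax q hq
    exact ⟨u, hu, ⟨hI, Or.inr ⟨rep q, h1, h2, h3⟩⟩, hd⟩
  · push Not at hB
    obtain ⟨u, hu, hI, h1, h2, hd⟩ := ex_A D x hx rep hrep hmax hB
    exact ⟨u, hu, ⟨hI, Or.inl ⟨h1, h2⟩⟩, hd⟩

theorem can_pt : PT (Can D) := ⟨can_mono D, can_uniq D, can_exi D⟩

end

/-- `G` leaves a triangulation of the second hypersimplex over `ι` invariant. -/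
def Ex {ι : Type} [Fintype ι] (G : Subgroup (Equiv.Perm ι)) : Prop :=
  ∃ C : (ι → ι → Prop) → Prop, PT C ∧ ∀ σ ∈ G, ∀ S, C S → C (fun i j => S (σ.symm i) (σ.symm j))

private theorem castA {ι κ : Type} {π : ι → κ}
    (A : ∀ p : κ, ({i // π i = p} → {i // π i = p} → Prop) → Prop) {p p' : κ} (h : p = p')
    (S : ι → ι → Prop) (hS : A p (fun a b => S a b)) : A p' (fun a b => S a b) := by
  subst h
  exact hS

/-- The composition theorem for semiregular groups. -/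
theorem comp_ex {ι κ : Type} [Fintype ι] [Fintype κ] [DecidableEq κ]
    (G : Subgroup (Equiv.Perm ι)) (hsr : ∀ σ ∈ G, ∀ i, σ i = i → σ = 1) (π : ι → κ)
    (hsur : Function.Surjective π) (Gb : Subgroup (Equiv.Perm κ)) (hEx : Ex Gb)
    (hGb : ∀ σ ∈ G, ∃ τ ∈ Gb, ∀ i, π (σ i) = τ (π i))
    (A0 : ∀ p : κ, ({i // π i = p} → {i // π i = p} → Prop) → Prop) (h0 : ∀ p, PT (A0 p))
    (hinv : ∀ p, ∀ σ ∈ G, (∀ i, π i = p → π (σ i) = p) → ∀ S : ι → ι → Prop,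
      A0 p (fun a b => S a b) → A0 p (fun a b => S (σ.symm a) (σ.symm b))) : Ex G := by
  have hcl : ∀ σ ∈ G, ∀ i j, π i = π j → π (σ i) = π (σ j) := by
    intro σ hσ i j hij
    obtain ⟨τ, -, hτ⟩ := hGb σ hσ
    rw [hτ, hτ, hij]
  obtain ⟨Cb, hCb, hCbi⟩ := hEx
  obtain ⟨A, hA, hAi⟩ := fam G π hsur hcl A0 h0 hinv
  obtain ⟨ρ, hρ, hρi⟩ := rank_exists π hsur G (by
    intro σ hσ i hi j
    rw [hsr σ hσ i hi]; rfl) hcl
  obtain ⟨r, hr, hri⟩ := rank_exists (id : ι → ι) Function.surjective_id G (by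
    intro σ hσ i hi j
    rw [hsr σ hσ i hi]; rfl) (by
    intro σ hσ i j hij
    exact congrArg (fun z => id (σ z)) hij)
  let D : Dat ι κ := ⟨π, hsur, Cb, hCb, A, hA, ρ, hρ, r, hr⟩
  refine ⟨Can D, can_pt D, ?_⟩
  intro σ hσ S hS
  obtain ⟨τ, hτ, hπ⟩ := hGb σ hσ
  refine can_inv D σ τ hπ ?_ (fun c i => hri σ hσ c i) (fun S hS => hCbi τ hτ S hS) ?_ S hS
  · intro c p
    obtain ⟨j, rfl⟩ := hsur p
    have h1 := hρi σ hσ c j
    rw [hπ j] at h1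
    exact h1
  · intro p S hS
    obtain ⟨i, rfl⟩ := hsur p
    exact castA A (hπ i) (fun a b => S (σ.symm a) (σ.symm b)) (hAi σ hσ i S hS)

end Pool.Agent.Lib.HyE
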