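import Mathlib

/-!
# MP_079fc8_co, composition over finite types. Definitions

All triangulations are described by families of sets of pairs of indices.
-/

set_option autoImplicit false

namespace Pool.Agent.Lib.HyE

open Finset

/-- Symmetric nonnegative weights on the pairs of different indices. -/
structure IsW {ι : Type} (u : ι → ι → ℝ) : Prop where
  nn : ∀ i j, 0 ≤ u i j
  sym : ∀ i j, u i j = u j i
  dg : ∀ i, u i i = 0

/-- The degree of an index. -/
def deg {ι : Type} [Fintype ι] (u : ι → ι → ℝ) (i : ι) : ℝ := ∑ j, u i j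

/-- The pairs of positive weight. -/
def supp {ι : Type} (u : ι → ι → ℝ) (i j : ι) : Prop := 0 < u i j

/-- A triangulation of the (cone over the) second hypersimplex, given by the predicate `C` on sets
of pairs: `C S` means that the pairs of `S` are vertices of one simplex. -/
structure PT {ι : Type} [Fintype ι] (C : (ι → ι → Prop) → Prop) : Prop where
  mono : ∀ S S' : ι → ι → Prop, (∀ i j, S i j → S' i j) → C S' → C S
  uniq : ∀ u v : ι → ι → ℝ, IsW u → IsW v → C (supp u) → C (supp v) →
    (∀ i, deg u i = deg v i) → ∀ i j, u i j = v i j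
  exi : ∀ x : ι → ℝ, (∀ i, 0 ≤ x i) → (∀ i, 2 * x i ≤ ∑ j, x j) →
    ∃ u : ι → ι → ℝ, IsW u ∧ C (supp u) ∧ ∀ i, deg u i = x i

section

variable {ι κ : Type} [Fintype ι] [DecidableEq κ] (π : ι → κ)

/-- the sum over the class of `p` -/
def cs (x : ι → ℝ) (p : κ) : ℝ := ∑ i ∈ univ.filter (fun i => π i = p), x i

/-- the weight at `i` of the pairs inside the class of `i` -/
def inn (u : ι → ι → ℝ) (i : ι) : ℝ := ∑ j ∈ univ.filter (fun j => π j = π i), u i j

/-- the weight at `i` of the outer pairs -/
def out (u : ι → ι → ℝ) (i : ι) : ℝ := ∑ j ∈ univ.filter (fun j => ¬ π j = π i), u i j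

open Classical in
/-- the sum of `u j k` over the `j, k ≠ i` in the class of `i` -/
noncomputable def rst (u : ι → ι → ℝ) (i : ι) : ℝ :=
  ∑ j ∈ univ.filter (fun j => π j = π i ∧ j ≠ i),
    ∑ k ∈ univ.filter (fun k => π k = π i ∧ k ≠ i), u j k

/-- the weights between the classes -/
noncomputable def prj (u : ι → ι → ℝ) (p q : κ) : ℝ :=
  if p = q then 0 else
    ∑ i ∈ univ.filter (fun i => π i = p), ∑ j ∈ univ.filter (fun j => π j = q), u i j

end

/-- The data of a composition: a partition (the fibres of `π`), a triangulation `Cb` for the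
classes, a triangulation for every class, and for every index `c` an order of the classes and an
order of the indices. -/
structure Dat (ι κ : Type) [Fintype ι] [Fintype κ] [DecidableEq κ] where
  π : ι → κ
  sur : Function.Surjective π
  Cb : (κ → κ → Prop) → Prop
  hCb : PT Cb
  A : ∀ p : κ, ({i // π i = p} → {i // π i = p} → Prop) → Prop
  hA : ∀ p, PT (A p)
  ρ : ι → κ → ℕ
  hρ : ∀ c, Function.Injective (ρ c)
  r : ι → ι → ℕ
  hr : ∀ c, Function.Injective (r c)

section

variable {ι κ : Type} [Fintype ι] [Fintype κ] [DecidableEq κ]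

/-- the restriction of a set of pairs to a class -/
def res (D : Dat ι κ) (p : κ) (S : ι → ι → Prop) (i j : {i // D.π i = p}) : Prop := S i j

/-- inside every class the pairs belong to a simplex of the class -/
def Inn (D : Dat ι κ) (S : ι → ι → Prop) : Prop := ∀ p, D.A p (res D p S)

/-- if an outer pair contains `i` then all pairs which meet the class of `i` contain `i` -/
def A1 (D : Dat ι κ) (S : ι → ι → Prop) : Prop :=
  ∀ i j k l, S i j → D.π i ≠ D.π j → S k l → D.π k = D.π i → (k = i ∨ l = i)

/-- the outer pairs belong to a simplex of `Cb` -/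
def A2 (D : Dat ι κ) (S : ι → ι → Prop) : Prop :=
  D.Cb (fun p q => p ≠ q ∧ ∃ i j, S i j ∧ D.π i = p ∧ D.π j = q)

/-- all outer pairs and all pairs in the class of `c` contain `c` -/
def B1 (D : Dat ι κ) (c : ι) (S : ι → ι → Prop) : Prop :=
  ∀ i j, S i j → (D.π i ≠ D.π j ∨ D.π i = D.π c) → (i = c ∨ j = c)

/-- order condition inside the classes -/
def B2 (D : Dat ι κ) (c : ι) (S : ι → ι → Prop) : Prop :=
  ∀ i j k, D.π j = D.π i → D.π k = D.π i → D.π i ≠ D.π c → D.r c i < D.r c j → S c j → S i k →
    ∀ a b, D.π a = D.π j → D.π b = D.π j → S a b → (a = j ∨ b = j)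

/-- the class `p` is full: no outer pairs, or all pairs contain one index `b` -/
def Full (D : Dat ι κ) (c : ι) (S : ι → ι → Prop) (p : κ) : Prop :=
  (∀ b, D.π b = p → ¬ S c b) ∨ ∃ b, D.π b = p ∧
    (∀ i j, D.π i = p → D.π j = p → S i j → (i = b ∨ j = b)) ∧ ∀ i, D.π i = p → S c i → i = b

/-- order condition for the classes -/
def B3 (D : Dat ι κ) (c : ι) (S : ι → ι → Prop) : Prop :=
  ∀ p p', p ≠ D.π c → p' ≠ D.π c → D.ρ c p < D.ρ c p' →
    (∃ k l, D.π k = p' ∧ D.π l = p' ∧ S k l) → Full D c S p

/-- the simplices of the composition -/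
def Can (D : Dat ι κ) (S : ι → ι → Prop) : Prop :=
  Inn D S ∧ ((A1 D S ∧ A2 D S) ∨ ∃ c, B1 D c S ∧ B2 D c S ∧ B3 D c S)

end

end Pool.Agent.Lib.HyE
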