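import Pool.Agent.Lib.HyE.Fil

/-!
# HyE, row Fib: filling inside a class

PROOF IN WORDS. Work on the subtype `{i // π i = p}` (`Finset.sum_subtype`). Let `s = cs π x p`, `h = (s - O) / 2 ≥ 0`,
`l i = max 0 (x i - h)`, `μ i = x i - l i = min (x i) h ≥ 0`, `τ = O - ∑ l i`. `τ ≥ 0`: let `K` be the set of the `i` in
`p` with `x i > h`. If `K` is empty `∑ l = 0 ≤ O`. If `K = {i}` then `x i - h ≤ O` is the hypothesis `2 x i - s ≤ O`.
If `K` has at least two elements then `∑ l = ∑ i ∈ K, x i - |K| h ≤ s - 2 h = O`. `τ ≤ ∑ μ = s - ∑ l` as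
`O ≤ s`. Let `w` be from `fill` (with the rank `r`) and `o i = l i + w i` (and `0` outside the class).
`x i - o i = μ i - w i ∈ [0, h]`. Order: `w i = μ i` gives `o i = x i`; `w j = 0` gives `o j = l j`, which is
`0` or `x j - h`.
-/

set_option autoImplicit false

namespace Pool.Agent.Lib.HyE

open Finset

theorem fib {ι κ : Type} [Fintype ι] [DecidableEq κ] (π : ι → κ) (r : ι → ℕ)
    (hr : Function.Injective r) (x : ι → ℝ) (hx : ∀ i, 0 ≤ x i) (p : κ) (O : ℝ) (h0 : 0 ≤ O)
    (h1 : O ≤ cs π x p) (h2 : ∀ i, π i = p → 2 * x i - cs π x p ≤ O) :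
    ∃ o : ι → ℝ, (∀ i, π i = p → 0 ≤ o i ∧ o i ≤ x i ∧ 2 * (x i - o i) ≤ cs π x p - O) ∧
      cs π o p = O ∧ ∀ i j, π i = p → π j = p → r i < r j →
        o i = x i ∨ o j = 0 ∨ 2 * (x j - o j) = cs π x p - O := by
  classical
  have hsx : ∑ i ∈ univ.filter (fun i => π i = p), x i = cs π x p := rfl
  obtain ⟨s, hs⟩ : ∃ s : ℝ, s = cs π x p := ⟨_, rfl⟩
  rw [← hs] at h1 hsx ⊢
  have h2' : ∀ i, π i = p → 2 * x i - s ≤ O := fun i hi => by rw [hs]; exact h2 i hi
  obtain ⟨h, hh⟩ : ∃ h : ℝ, h = (s - O) / 2 := ⟨_, rfl⟩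
  have hh0 : 0 ≤ h := by rw [hh]; linarith
  obtain ⟨P, hP⟩ : ∃ P : Finset ι, P = univ.filter (fun i => π i = p) := ⟨_, rfl⟩
  have hmemP : ∀ i, i ∈ P ↔ π i = p := fun i => by simp [hP]
  rw [← hP] at hsx
  obtain ⟨l, hl⟩ : ∃ l : ι → ℝ, ∀ i, l i = max 0 (x i - h) := ⟨fun i => max 0 (x i - h), fun _ => rfl⟩
  obtain ⟨μ, hμ⟩ : ∃ μ : ι → ℝ, ∀ i, μ i = x i - l i := ⟨fun i => x i - l i, fun _ => rfl⟩
  have hl0 : ∀ i, 0 ≤ l i := fun i => by rw [hl]; exact le_max_left _ _
  have hl1 : ∀ i, x i - h ≤ l i := fun i => by rw [hl]; exact le_max_right _ _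
  have hlx : ∀ i, l i ≤ x i := fun i => by rw [hl]; exact max_le (hx i) (by linarith)
  have hμ0 : ∀ i, 0 ≤ μ i := fun i => by rw [hμ]; linarith [hlx i]
  have hμh : ∀ i, μ i ≤ h := fun i => by rw [hμ]; linarith [hl1 i]
  have hsum : ∑ i ∈ P, l i + ∑ i ∈ P, μ i = s := by
    rw [← Finset.sum_add_distrib, ← hsx]
    exact Finset.sum_congr rfl (fun i _ => by rw [hμ]; ring)
  have hτ0 : ∑ i ∈ P, l i ≤ O := by
    by_cases hA : ∀ i ∈ P, x i ≤ h
    · have h3 : ∑ i ∈ P, l i = 0 := Finset.sum_eq_zero (fun i hi => by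
        rw [hl]
        exact max_eq_left (by linarith [hA i hi]))
      linarith
    · push Not at hA
      obtain ⟨a, ha, hah⟩ := hA
      have h4 : l a = x a - h := by
        rw [hl]
        exact max_eq_right (by linarith)
      by_cases hB : ∀ i ∈ P, i ≠ a → x i ≤ h
      · have h3 : ∑ i ∈ P, l i = l a := by
          apply Finset.sum_eq_single_of_mem a ha
          intro i hi hia
          rw [hl]
          exact max_eq_left (by linarith [hB i hi hia])
        have h5 := h2' a ((hmemP a).1 ha)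
        rw [h3, h4, hh]
        linarith
      · push Not at hB
        obtain ⟨b, hb, hba, hbh⟩ := hB
        have h3 : μ a + μ b ≤ ∑ i ∈ P, μ i := by
          rw [← Finset.sum_pair (Ne.symm hba)]
          apply Finset.sum_le_sum_of_subset_of_nonneg
          · intro i hi
            rw [Finset.mem_insert, Finset.mem_singleton] at hi
            rcases hi with rfl | rfl <;> assumption
          · intro i _ _
            exact hμ0 i
        have h5 : l b = x b - h := by
          rw [hl]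
          exact max_eq_right (by linarith)
        have h6 : μ a = h := by rw [hμ, h4]; ring
        have h7 : μ b = h := by rw [hμ, h5]; ring
        linarith
  have hsub : ∀ f : ι → ℝ, ∑ i : {i // π i = p}, f i = ∑ i ∈ P, f i := fun f =>
    (Finset.sum_subtype P hmemP f).symm
  obtain ⟨w, hw, hwsum, hword⟩ := fill (α := {i // π i = p}) (fun i => r i)
    (fun i j hij => Subtype.ext (hr hij)) (fun i => μ i) (fun i => hμ0 i) (O - ∑ i ∈ P, l i)
    (by linarith) (by rw [hsub μ]; linarith)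
  refine ⟨fun i => if hi : π i = p then l i + w ⟨i, hi⟩ else 0, ?_, ?_, ?_⟩
  · intro i hi
    have h3 := hw ⟨i, hi⟩
    have h4 := hμ i
    have h5 := hl0 i
    have h6 := hμh i
    simp only [hi, dite_true]
    refine ⟨by linarith [h3.1], by linarith [h3.2], ?_⟩
    linarith [h3.1]
  · have h3 : cs π (fun i => if hi : π i = p then l i + w ⟨i, hi⟩ else 0) p =
        ∑ i : {i // π i = p}, (l i + w i) := by
      rw [cs, ← hP, ← hsub]
      refine Finset.sum_congr rfl (fun i _ => ?_)
      rw [dif_pos i.2]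
    rw [h3, Finset.sum_add_distrib, hsub l, hwsum]
    ring
  · intro i j hi hj hij
    simp only [hi, hj, dite_true]
    rcases hword ⟨i, hi⟩ ⟨j, hj⟩ hij with h3 | h3
    · left
      rw [h3, hμ]
      ring
    · right
      rw [h3, add_zero, hl]
      rcases le_total (x j - h) 0 with h4 | h4
      · left
        exact max_eq_left h4
      · right
        rw [max_eq_right h4, hh]
        ring

end Pool.Agent.Lib.HyE
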