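import Pool.Agent.Lib.HyE.Ind

/-!
# HyE: the form used in StabiliserCriterion
-/

set_option autoImplicit false

namespace Pool.Agent.Lib.HyS

theorem solvable_exists {n : ℕ} (G N : Subgroup (Equiv.Perm (Fin n))) (hNG : N ≤ G)
    (hNn : ∀ σ ∈ G, ∀ ν ∈ N, σ * ν * σ⁻¹ ∈ N) (hst : ∀ σ ∈ G, ∀ i, σ i = i → σ ∈ N)
    (hN2 : ∀ x, ∀ s ∈ N, ∀ t ∈ N, s x = x ∨ t x = x ∨ s x = t x) (hsol : IsSolvable G) :
    ∃ T : LatticeTriangulation 2 n, Invariant G T :=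
  HyE.main_exists G N hsol hNG hNn hst hN2

end Pool.Agent.Lib.HyS
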