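import Pool.Agent.Lib.HyE.Bs

/-!
# HyE, row Prj: the weights between the classes

PROOF IN WORDS. `prj_w`: cases, symmetry by `Finset.sum_comm`. `prj_deg`: `∑ q ≠ p, ∑ i ∈ p, ∑ j ∈ q, u i j =
∑ i ∈ p, ∑ j ∉ p, u i j` (exchange sums, `Finset.sum_fiberwise`). `prj_supp`: a positive double sum of
nonnegative numbers has a positive term. `prj_single`: all other terms are zero.
-/

set_option autoImplicit false
set_option linter.unusedVariables false

namespace Pool.Agent.Lib.HyE

open Finset

variable {ι κ : Type} [Fintype ι] [DecidableEq κ] (π : ι → κ)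

theorem prj_w {u : ι → ι → ℝ} (hu : IsW u) : IsW (prj π u) := by
  refine ⟨?_, ?_, ?_⟩
  · intro p q
    unfold prj
    split_ifs with h
    · exact le_rfl
    · exact Finset.sum_nonneg fun i _ => Finset.sum_nonneg fun j _ => hu.nn i j
  · intro p q
    by_cases h : p = q
    · rw [h]
    · unfold prj
      rw [if_neg h, if_neg (Ne.symm h), Finset.sum_comm]
      exact Finset.sum_congr rfl fun j _ => Finset.sum_congr rfl fun i _ => hu.sym i j
  · intro p
    unfold prj
    rw [if_pos rfl]

theorem prj_deg [Fintype κ] {u : ι → ι → ℝ} (hu : IsW u) (p : κ) :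
    deg (prj π u) p = cs π (out π u) p := by
  unfold deg cs out prj
  have h1 : ∀ q : κ, (if p = q then 0 else
      ∑ i ∈ univ.filter (fun i => π i = p), ∑ j ∈ univ.filter (fun j => π j = q), u i j) =
      ∑ i ∈ univ.filter (fun i => π i = p),
        ∑ j, if π j = q then (if p = q then 0 else u i j) else 0 := by
    intro q
    by_cases h : p = q
    · simp [h]
    · simp only [if_neg h, Finset.sum_filter]
  rw [Finset.sum_congr rfl fun q _ => h1 q, Finset.sum_comm]
  refine Finset.sum_congr rfl fun i hi => ?_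
  have hip : π i = p := (Finset.mem_filter.1 hi).2
  rw [Finset.sum_comm, Finset.sum_filter]
  refine Finset.sum_congr rfl fun j _ => ?_
  rw [Finset.sum_ite_eq, if_pos (Finset.mem_univ _)]
  by_cases h : p = π j
  · rw [if_pos h, if_neg (not_not.2 (h.symm.trans hip.symm))]
  · rw [if_neg h, if_pos fun h2 => h (hip.symm.trans h2.symm)]

theorem prj_supp {u : ι → ι → ℝ} (hu : IsW u) (p q : κ) (h : supp (prj π u) p q) :
    p ≠ q ∧ ∃ i j, supp u i j ∧ π i = p ∧ π j = q := by
  unfold supp prj at h
  split_ifs at h with h1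
  · exact absurd h (lt_irrefl _)
  · refine ⟨h1, ?_⟩
    by_contra hn
    have h2 : ∑ i ∈ univ.filter (fun i => π i = p), ∑ j ∈ univ.filter (fun j => π j = q), u i j ≤ 0 := by
      refine Finset.sum_nonpos fun i hi => Finset.sum_nonpos fun j hj => ?_
      by_contra h3
      exact hn ⟨i, j, not_le.1 h3, (Finset.mem_filter.1 hi).2, (Finset.mem_filter.1 hj).2⟩
    exact absurd h (not_lt.2 h2)

theorem prj_single {u : ι → ι → ℝ} (hu : IsW u) (i j : ι) (hij : π i ≠ π j)
    (h : ∀ k l, π k = π i → π l = π j → 0 < u k l → k = i ∧ l = j) :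
    prj π u (π i) (π j) = u i j := by
  have h0 : ∀ k l, π k = π i → π l = π j → ¬ (k = i ∧ l = j) → u k l = 0 := by
    intro k l hk hl hn
    refine le_antisymm ?_ (hu.nn k l)
    by_contra h3
    exact hn (h k l hk hl (not_le.1 h3))
  unfold prj
  rw [if_neg hij, Finset.sum_eq_single i, Finset.sum_eq_single j]
  · intro l hl hlj
    exact h0 i l rfl (Finset.mem_filter.1 hl).2 fun h3 => hlj h3.2
  · intro hn
    exact (hn (Finset.mem_filter.2 ⟨Finset.mem_univ j, rfl⟩)).elim
  · intro k hk hki
    exact Finset.sum_eq_zero fun l hl =>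
      h0 k l (Finset.mem_filter.1 hk).2 (Finset.mem_filter.1 hl).2 fun h3 => hki h3.1
  · intro hn
    exact (hn (Finset.mem_filter.2 ⟨Finset.mem_univ i, rfl⟩)).elim

end Pool.Agent.Lib.HyE
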