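import Pool.Agent.Lib.HyE.Defs

/-!
# HyE, row Trp: transport along a bijection

PROOF IN WORDS. Put `u' i j = u (e i) (e j)`, `deg u' i = deg u (e i)` (`Equiv.sum_comp`). `mono`, `uniq` by substitution
(`i = e (e.symm i)`), `exi`: apply `h.exi` to `x ∘ e`... (weights `w` on `ι`, `u i j = w (e.symm i)
(e.symm j)`).
-/

set_option autoImplicit false

namespace Pool.Agent.Lib.HyE

open Finset

theorem trp {ι ι' : Type} [Fintype ι] [Fintype ι'] (e : ι ≃ ι') (C : (ι → ι → Prop) → Prop)
    (h : PT C) : PT (fun S : ι' → ι' → Prop => C (fun i j => S (e i) (e j))) := by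
  have hw : ∀ u : ι' → ι' → ℝ, IsW u → IsW (fun i j : ι => u (e i) (e j)) := fun u hu =>
    ⟨fun i j => hu.nn _ _, fun i j => hu.sym _ _, fun i => hu.dg _⟩
  have hd : ∀ (u : ι' → ι' → ℝ) (i : ι), deg (fun i j : ι => u (e i) (e j)) i = deg u (e i) :=
    fun u i => Equiv.sum_comp e (fun j => u (e i) j)
  refine ⟨fun S S' hS hC => h.mono _ _ (fun i j => hS _ _) hC, ?_, ?_⟩
  · intro u v hu hv hCu hCv hdeg i j
    have h1 := h.uniq (fun i j : ι => u (e i) (e j)) (fun i j : ι => v (e i) (e j)) (hw u hu)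
      (hw v hv) hCu hCv (fun i => by rw [hd, hd, hdeg]) (e.symm i) (e.symm j)
    simpa using h1
  · intro x hx0 hx
    obtain ⟨w, hw1, hw2, hw3⟩ := h.exi (fun i => x (e i)) (fun i => hx0 _) (fun i => by
      rw [Equiv.sum_comp e x]
      exact hx _)
    refine ⟨fun i j => w (e.symm i) (e.symm j),
      ⟨fun i j => hw1.nn _ _, fun i j => hw1.sym _ _, fun i => hw1.dg _⟩, ?_, ?_⟩
    · refine h.mono _ _ (fun i j hij => ?_) hw2
      have h1 : 0 < w (e.symm (e i)) (e.symm (e j)) := hij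
      rw [Equiv.symm_apply_apply, Equiv.symm_apply_apply] at h1
      exact h1
    · intro i
      have h1 : deg (fun i j => w (e.symm i) (e.symm j)) i = deg w (e.symm i) :=
        Equiv.sum_comp e.symm (fun j => w (e.symm i) j)
      rw [h1, hw3, Equiv.apply_symm_apply]

end Pool.Agent.Lib.HyE
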