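import Pool.Agent.Lib.HyE.Bt
import Pool.Agent.Lib.HyE.Prj

/-!
# HyE, row UA: facts on A1

PROOF IN WORDS. `a1_star`: `out u i > 0` gives an outer pair `(i, z)` (`out_pos`). Every pair `(k, l)` of positive
weight with `π k = π i` contains `i`. So for `j, k ≠ i` in the class `u j k = 0`, and for `j ≠ i` in the
class an outer pair `(j, l)` would contain `i`, so `l = i`, which is in the class of `j`: not outer;
so `out u j = 0`. `a1_out`: if `out u i > 0` this is `star_out`; if `out u i = 0` then `key` gives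
`cs deg = 2 deg i + rst + cs out ≥ 2 deg i`. `a1_le`: if all `out u i`, `π i = p`, are zero the left side is
zero. Otherwise `out u i > 0` for some `i` in `p`; by `a1_star` and `star_out` the left side is
`2 deg u i - cs (deg u) p`, and `low` for `v` (same degrees). `a1_single`: for `(i, j)` outer of positive
weight and `(k, l)` of positive weight with `π k = π i`, `π l = π j`: `A1` gives `k = i` or `l = i`, and
`l = i` is impossible as `π l = π j ≠ π i`; apply `A1` to `(j, i)`, `(l, k)` for `l = j`; then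
`prj_single`.
-/

set_option autoImplicit false

namespace Pool.Agent.Lib.HyE

open Finset

variable {ι κ : Type} [Fintype ι] [Fintype κ] [DecidableEq κ] (D : Dat ι κ)

theorem a1_star {u : ι → ι → ℝ} (hu : IsW u) (h : A1 D (supp u)) (i : ι)
    (hi : 0 < out D.π u i) :
    (∀ j k, D.π j = D.π i → D.π k = D.π i → j ≠ i → k ≠ i → u j k = 0) ∧
      ∀ j, D.π j = D.π i → j ≠ i → out D.π u j = 0 := by
  obtain ⟨z, hz, huz⟩ := out_pos D.π hu hi
  have key1 : ∀ k l, 0 < u k l → D.π k = D.π i → (k = i ∨ l = i) := fun k l hkl hk =>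
    h i z k l huz (Ne.symm hz) hkl hk
  refine ⟨fun j k hj _ hji hki => ?_, fun j hj hji => ?_⟩
  · by_contra hne
    have hp : 0 < u j k := lt_of_le_of_ne (hu.nn j k) (Ne.symm hne)
    rcases key1 j k hp hj with h1 | h1
    · exact hji h1
    · exact hki h1
  · by_contra hne
    have hp : 0 < out D.π u j := lt_of_le_of_ne (out_nonneg D.π hu j) (Ne.symm hne)
    obtain ⟨l, hl, hul⟩ := out_pos D.π hu hp
    rcases key1 j l hul hj with h1 | h1
    · exact hji h1
    · exact hl (by rw [h1, hj])

theorem a1_out {u : ι → ι → ℝ} (hu : IsW u) (h : A1 D (supp u)) (i : ι) :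
    out D.π u i = max 0 (2 * deg u i - cs D.π (deg u) (D.π i)) := by
  rcases (out_nonneg D.π hu i).eq_or_lt with h0 | h0
  · have h1 := key D.π hu i
    have h2 := rst_nonneg D.π hu i
    have h3 := cs_nonneg D.π (fun j => out_nonneg D.π hu j) (D.π i)
    rw [← h0] at h1 ⊢
    rw [max_eq_left]
    linarith
  · obtain ⟨h1, h2⟩ := a1_star D hu h i h0
    obtain ⟨-, h3⟩ := star_out D.π hu i h1 h2
    rw [← h3, max_eq_right h0.le]

theorem a1_le {u v : ι → ι → ℝ} (hu : IsW u) (hv : IsW v) (h : A1 D (supp u))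
    (hd : ∀ i, deg u i = deg v i) (p : κ) :
    cs D.π (out D.π u) p ≤ cs D.π (out D.π v) p := by
  by_cases hall : ∀ i, D.π i = p → out D.π u i = 0
  · have h1 : cs D.π (out D.π u) p = 0 :=
      Finset.sum_eq_zero fun i hi => hall i (Finset.mem_filter.1 hi).2
    rw [h1]
    exact cs_nonneg D.π (fun j => out_nonneg D.π hv j) p
  · push Not at hall
    obtain ⟨i, hi, hne⟩ := hall
    subst hi
    have h0 : 0 < out D.π u i := lt_of_le_of_ne (out_nonneg D.π hu i) (Ne.symm hne)
    obtain ⟨h1, h2⟩ := a1_star D hu h i h0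
    obtain ⟨h3, h4⟩ := star_out D.π hu i h1 h2
    have h5 := low D.π hv i
    have h6 : deg u = deg v := funext hd
    rw [← h6] at h5
    rw [h3, h4]
    exact h5

theorem a1_single {u : ι → ι → ℝ} (hu : IsW u) (h : A1 D (supp u)) (i j : ι)
    (hij : D.π i ≠ D.π j) (hp : 0 < u i j) : prj D.π u (D.π i) (D.π j) = u i j := by
  refine prj_single D.π hu i j hij fun k l hk hl hkl => ?_
  have h1 : k = i := by
    rcases h i j k l hp hij hkl hk with h2 | h2
    · exact h2
    · exact absurd (by rw [← h2, hl]) hij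
  have hp' : 0 < u j i := by rw [hu.sym]; exact hp
  have hkl' : 0 < u l k := by rw [hu.sym]; exact hkl
  refine ⟨h1, ?_⟩
  rcases h j i l k hp' (Ne.symm hij) hkl' hl with h2 | h2
  · exact h2
  · exact absurd (by rw [← h2, hk]) hij

end Pool.Agent.Lib.HyE
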