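import Pool.Agent.Lib.HyE.UA
import Pool.Agent.Lib.HyE.Cls

/-!
# HyE, row UAA: uniqueness, both of type A

PROOF IN WORDS. By `a1_out` and `hd` `out u = out v`. So the degrees of `prj u`, `prj v` agree (`prj_deg`), both are
weights (`prj_w`), and their supports satisfy `D.Cb` by `A2`, `prj_supp` and `D.hCb.mono`. So
`prj u = prj v` (`D.hCb.uniq`). By `uniq_of_out` it is enough to show `u i j = v i j` for `π i ≠ π j`.
Claim: if `u i j > 0` then `u i j = v i j`; with the roles exchanged this gives everything (both zero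
otherwise). Proof: `prj v (π i) (π j) = prj u (π i) (π j) = u i j > 0` (`a1_single`), so there are `k, l`
with `v k l > 0`, `π k = π i`, `π l = π j` (`prj_supp`). `out u i ≥ u i j > 0` (`le_out`), so `out v i > 0`
and there is `z` with `v i z > 0`, `π z ≠ π i` (`out_pos`); `A1` for `v` with the outer pair `(k, l)` and
the pair `(i, z)` (`π i = π k`) gives `i = k` (`z = k` is impossible). In the same way, with `(l, k)` and
`out v j = out u j ≥ u j i > 0`, `j = l`. So `v i j > 0` and `v i j = prj v (π i) (π j) = u i j`.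
-/

set_option autoImplicit false

namespace Pool.Agent.Lib.HyE

open Finset

variable {ι κ : Type} [Fintype ι] [Fintype κ] [DecidableEq κ] (D : Dat ι κ)

private theorem claim_AA {u v : ι → ι → ℝ} (hu : IsW u) (hv : IsW v) (h1 : A1 D (supp u))
    (h1' : A1 D (supp v)) (hout : ∀ i, out D.π u i = out D.π v i)
    (hprj : ∀ p q, prj D.π u p q = prj D.π v p q) (i j : ι) (hij : D.π i ≠ D.π j)
    (hp : 0 < u i j) : u i j = v i j := by
  have e1 : prj D.π u (D.π i) (D.π j) = u i j := a1_single D hu h1 i j hij hp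
  have e2 : supp (prj D.π v) (D.π i) (D.π j) := by
    change 0 < prj D.π v (D.π i) (D.π j)
    rw [← hprj, e1]
    exact hp
  obtain ⟨-, k, l, hkl, hk, hl⟩ := prj_supp D.π hv _ _ e2
  have hkl' : D.π k ≠ D.π l := by
    rw [hk, hl]
    exact hij
  have o1 : 0 < out D.π v i := by
    rw [← hout]
    exact lt_of_lt_of_le hp (le_out D.π hu i j (Ne.symm hij))
  have o2 : 0 < out D.π v j := by
    rw [← hout]
    refine lt_of_lt_of_le ?_ (le_out D.π hu j i hij)
    rw [hu.sym j i]
    exact hp
  obtain ⟨z, hz, hvz⟩ := out_pos D.π hv o1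
  obtain ⟨w, hw, hvw⟩ := out_pos D.π hv o2
  have hik : i = k := by
    rcases h1' k l i z hkl hkl' hvz hk.symm with h | h
    · exact h
    · exact absurd (by rw [h, hk]) hz
  have hlk : supp v l k := by
    change 0 < v l k
    rw [hv.sym l k]
    exact hkl
  have hjl : j = l := by
    rcases h1' l k j w hlk (Ne.symm hkl') hvw hl.symm with h | h
    · exact h
    · exact absurd (by rw [h, hl]) hw
  subst hik
  subst hjl
  rw [← e1, hprj]
  exact a1_single D hv h1' i j hij hkl

theorem uniq_AA {u v : ι → ι → ℝ} (hu : IsW u) (hv : IsW v)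
    (hiu : Inn D (supp u)) (hiv : Inn D (supp v)) (h1 : A1 D (supp u)) (h2 : A2 D (supp u))
    (h1' : A1 D (supp v)) (h2' : A2 D (supp v)) (hd : ∀ i, deg u i = deg v i) (i j : ι) :
    u i j = v i j := by
  have hdf : deg u = deg v := funext hd
  have hout : ∀ i, out D.π u i = out D.π v i := fun i => by
    rw [a1_out D hu h1, a1_out D hv h1', hdf]
  have houtf : out D.π u = out D.π v := funext hout
  have hprj : ∀ p q, prj D.π u p q = prj D.π v p q := by
    refine D.hCb.uniq _ _ (prj_w D.π hu) (prj_w D.π hv) ?_ ?_ ?_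
    · exact D.hCb.mono _ _ (fun p q h => prj_supp D.π hu p q h) h2
    · exact D.hCb.mono _ _ (fun p q h => prj_supp D.π hv p q h) h2'
    · intro p
      rw [prj_deg D.π hu, prj_deg D.π hv, houtf]
  refine uniq_of_out D hu hv hiu hiv hd (fun i j hij => ?_) i j
  by_cases hp : 0 < u i j
  · exact claim_AA D hu hv h1 h1' hout hprj i j hij hp
  · by_cases hq : 0 < v i j
    · exact (claim_AA D hv hu h1' h1 (fun i => (hout i).symm) (fun p q => (hprj p q).symm) i j
        hij hq).symm
    · rw [le_antisymm (not_lt.1 hp) (hu.nn i j), le_antisymm (not_lt.1 hq) (hv.nn i j)]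

end Pool.Agent.Lib.HyE
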